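import Mathlib
import Pool.Agent.Lib.MP_8b8716_co_QG.Defs

set_option autoImplicit false

/-!
# MP_8b8716_co, project QP: definitions

The chromatic number of `F ^ 2` depends only on the completions of `F` at the nonsplit places with
small residue fields.
-/

noncomputable section

namespace Pool.Agent.MP_8b8716_co_QP

open Complex MeasureTheory Filter Topology Set
open NumberField
open Pool.Agent.MP_8b8716_co_HN
open Pool.Agent.MP_8b8716_co_QG

section E

variable (E : Subfield ℂ) [Cj E]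

/-- the condition on the stable places outside `S` -/
def BBS (S : Set (Ideal (𝓞 E))) (Q : Set ℕ) : Prop := ∀ P : Ideal (𝓞 E), Stab E P → P ∉ S →
  (∃ q ∈ Q, Nat.card (𝓞 E ⧸ P) = q ^ 2) ∧ ∃ a : 𝓞 E, cO E a - a ∉ P

/-- the elements of `RR E` which are divisible by `m` at the stable places in `S` -/
def JJ (S : Set (Ideal (𝓞 E))) (m : ℕ) : Ideal (RR E) where
  carrier := {r | ∀ P ∈ S, Stab E P → ∃ s : 𝓞 E, s ∉ P ∧ ∃ a : 𝓞 E, io E s * r = m * io E a}
  add_mem' := by
    intro x y hx hy P hP h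
    obtain ⟨s, hs, a, h1⟩ := hx P hP h
    obtain ⟨t, ht, b, h2⟩ := hy P hP h
    refine ⟨s * t, fun hst => ?_, t * a + s * b, ?_⟩
    · rcases h.1.isPrime.mem_or_mem hst with h3 | h3
      · exact hs h3
      · exact ht h3
    · rw [map_mul, map_add, map_mul, map_mul]
      push_cast
      linear_combination (io E t) * h1 + (io E s) * h2
  zero_mem' := by
    intro P _ h
    exact ⟨1, fun h1 => h.1.ne_top ((Ideal.eq_top_iff_one P).2 h1), 0, by simp⟩
  smul_mem' := by
    intro x y hy P hP h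
    obtain ⟨s, hs, a, h1⟩ := hy P hP h
    obtain ⟨t, ht, b, h2⟩ := x.2
    refine ⟨t * s, fun hst => ?_, b * a, ?_⟩
    · rcases h.1.isPrime.mem_or_mem hst with h3 | h3
      · exact ht P h h3
      · exact hs h3
    · rw [map_mul, map_mul, smul_eq_mul]
      push_cast
      linear_combination (io E s * (y : E)) * h2 + (io E b) * h1

theorem cR_mem_JJ {S : Set (Ideal (𝓞 E))} {m : ℕ} {r : RR E} (h : r ∈ JJ E S m) :
    cR E r ∈ JJ E S m := by
  intro P hP hst
  obtain ⟨s, hs, a, h1⟩ := h P hP hst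
  refine ⟨cO E s, fun h2 => hs ?_, cO E a, ?_⟩
  · have h3 := hst.2 _ h2
    rwa [cO_cO] at h3
  · have h4 := congrArg (cj E) h1
    rw [map_mul, map_mul, map_natCast] at h4
    exact h4

/-- the finite ring: the part of `RR E / m` at the places outside `S` -/
abbrev AQ (S : Set (Ideal (𝓞 E))) (m : ℕ) := RR E ⧸ JJ E Sᶜ m

/-- the class -/
def clQ (S : Set (Ideal (𝓞 E))) (m : ℕ) : RR E →+* AQ E S m := Ideal.Quotient.mk _

/-- the conjugation of `AQ E S m` -/
def barQ (S : Set (Ideal (𝓞 E))) (m : ℕ) : AQ E S m →+* AQ E S m :=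
  Ideal.quotientMap (JJ E Sᶜ m) (cR E) fun _ hr => cR_mem_JJ E hr

/-- the graph `G` can be approximated in `E`, at the infinite places and at the places in `S` -/
def Appr [NumberField E] (S : Set (Ideal (𝓞 E))) {T : Type} (G : SimpleGraph T) : Prop :=
  ∀ m : ℕ, 0 < m → ∀ δ > 0, ∃ z : T → E, ∀ t t' : T, G.Adj t t' → ∃ c : E, ‖(c : ℂ)‖ = 1 ∧
    nrm E (z t - z t' - c) < δ ∧ ∃ r ∈ JJ E S m, (r : E) = z t - z t' - c

end E

/-! ### Conditions on a maximal ideal -/

section cond

variable {O : Type*} [CommRing O]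

/-- `-1` is a square modulo `p`; for the places above `2`: `(a ^ 2 + 1) / 4` is in `p` locally -/
def SplitAt (p : Ideal O) : Prop := ∃ a s : O, s ∉ p ∧ ∃ b ∈ p, s * (a ^ 2 + 1) = 4 * b

/-- `(a ^ 2 + 1) / 4` is integral at `p`; always true if `2` is not in `p` -/
def UnramAt (p : Ideal O) : Prop := ∃ a s b : O, s ∉ p ∧ s * (a ^ 2 + 1) = 4 * b

end cond

/-- the field `ℚ(√D)` -/
def qf (D : ℕ) : Subfield ℝ := Subfield.closure {Real.sqrt D}

/-! ### The field `E = L(i)` -/

/-- `E = L(i)` -/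
def LE (L : Subfield ℝ) (E : Subfield ℂ) : Prop := ∀ z : ℂ, z ∈ E ↔ z.re ∈ L ∧ z.im ∈ L

/-- the inclusion of `L` in `E` -/
def emb {L : Subfield ℝ} {E : Subfield ℂ} (h : LE L E) : L →+* E :=
  (Complex.ofRealHom.comp L.subtype).codRestrict E.toSubring fun x =>
    (h _).2 ⟨by simp, by simp⟩

/-- the inclusion of the rings of integers -/
def embO {L : Subfield ℝ} {E : Subfield ℂ} (h : LE L E) : 𝓞 L →+* 𝓞 E :=
  RingOfIntegers.mapRingHom (emb h)

/-- the ideals above the ideals in `Sb` -/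
def abv {L : Subfield ℝ} {E : Subfield ℂ} (h : LE L E) (Sb : Set (Ideal (𝓞 L))) :
    Set (Ideal (𝓞 E)) := {P | P.comap (embO h) ∈ Sb}

end Pool.Agent.MP_8b8716_co_QP
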