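import Mathlib
import Pool.Agent.Lib.MP_8b8716_co_QP.Defs
import Pool.Agent.Lib.MP_8b8716_co_QG.GRR

set_option autoImplicit false

/-!
# MP_8b8716_co, project QP, module PJ: the ideals `JJ`
-/

noncomputable section

namespace Pool.Agent.MP_8b8716_co_QP

open Complex MeasureTheory Filter Topology Set
open NumberField IsDedekindDomain
open Pool.Agent.MP_8b8716_co_HN
open Pool.Agent.MP_8b8716_co_QG

section
variable {E : Subfield ℂ} [NumberField E] [Cj E] {S : Set (Ideal (𝓞 E))} {m : ℕ}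

theorem natCast_mem_JJ : (m : RR E) ∈ JJ E S m := by
  intro P _ hst
  refine ⟨1, fun h => hst.1.ne_top ((Ideal.eq_top_iff_one P).2 h), 1, ?_⟩
  rw [map_one]
  push_cast
  ring

theorem of_mem_JJ (hm : 0 < m) {r : RR E} (h1 : r ∈ JJ E S m) (h2 : r ∈ JJ E Sᶜ m) :
    ∃ r' ∈ RR E, (r : E) = m * r' := by
  have hm0 : (m : E) ≠ 0 := by exact_mod_cast hm.ne'
  let d : Ideal (𝓞 E) :=
    { carrier := {s | ∃ a : 𝓞 E, io E s * r = m * io E a}
      add_mem' := by
        rintro x y ⟨a, ha⟩ ⟨b, hb⟩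
        refine ⟨a + b, ?_⟩
        rw [map_add, map_add]
        linear_combination ha + hb
      zero_mem' := ⟨0, by simp⟩
      smul_mem' := by
        rintro x y ⟨a, ha⟩
        refine ⟨x * a, ?_⟩
        rw [smul_eq_mul, map_mul, map_mul]
        linear_combination (io E x) * ha }
  have hd : ∀ P, Stab E P → ¬ d ≤ P := by
    intro P hP hle
    by_cases hPS : P ∈ S
    · obtain ⟨s, hs, a, h⟩ := h1 P hPS hP
      exact hs (hle ⟨a, h⟩)
    · obtain ⟨s, hs, a, h⟩ := h2 P hPS hP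
      exact hs (hle ⟨a, h⟩)
  obtain ⟨s, ⟨a, ha⟩, hs⟩ := exists_mem_SS d hd
  refine ⟨(r : E) / m, ⟨s, hs, a, ?_⟩, ?_⟩
  · field_simp
    linear_combination ha
  · field_simp

namespace PJ

open UniqueFactorizationMonoid

/-- A prime ideal containing the product of some prime factors of `I` is one of them. -/
theorem mem_of_prod_le {I : Ideal (𝓞 E)} (hI : I ≠ 0) {T : Multiset (Ideal (𝓞 E))}
    (hT : T ≤ normalizedFactors I) {P : Ideal (𝓞 E)} (hP : P.IsPrime) (h : T.prod ≤ P) :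
    P ∈ T := by
  obtain ⟨Q, hQ, hle⟩ := (Ideal.IsPrime.multiset_prod_le hP).1 h
  have hQp : Prime Q := prime_of_normalized_factor Q (Multiset.mem_of_le hT hQ)
  have hQ0 : Q ≠ ⊥ := hQp.ne_zero
  have hQm : Q.IsMaximal := (Ideal.isPrime_of_prime hQp).isMaximal hQ0
  have h3 : Q = P := hQm.eq_of_le hP.ne_top hle
  rwa [← h3]

end PJ

theorem exists_split (hm : 0 < m) : ∃ e1 e2 : 𝓞 E, e1 + e2 = 1 ∧ iR E e1 ∈ JJ E S m ∧
    iR E e2 ∈ JJ E Sᶜ m := by
  classical
  have hm1 : Ideal.span {(m : 𝓞 E)} ≠ 0 := by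
    rw [Ne, Ideal.zero_eq_bot, Ideal.span_singleton_eq_bot]
    exact_mod_cast hm.ne'
  set I : Ideal (𝓞 E) := Ideal.span {(m : 𝓞 E)} with hI
  set F := UniqueFactorizationMonoid.normalizedFactors I with hF
  set A1 : Ideal (𝓞 E) := (F.filter (· ∈ S)).prod with hA1
  set A2 : Ideal (𝓞 E) := (F.filter (fun P => ¬ P ∈ S)).prod with hA2
  have hprod : A1 * A2 = I := by
    rw [hA1, hA2, ← Multiset.prod_add, Multiset.filter_add_not]
    exact associated_iff_eq.1 (UniqueFactorizationMonoid.prod_normalizedFactors hm1)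
  have h1 : ∀ P : Ideal (𝓞 E), P.IsPrime → A1 ≤ P → P ∈ S := fun P hP h =>
    (Multiset.mem_filter.1 (PJ.mem_of_prod_le hm1 (Multiset.filter_le _ _) hP h)).2
  have h2 : ∀ P : Ideal (𝓞 E), P.IsPrime → A2 ≤ P → P ∉ S := fun P hP h =>
    (Multiset.mem_filter.1 (PJ.mem_of_prod_le hm1 (Multiset.filter_le _ _) hP h)).2
  have htop : A1 ⊔ A2 = ⊤ := by
    by_contra hne
    obtain ⟨P, hP, hle⟩ := Ideal.exists_le_maximal _ hne
    exact h2 P hP.isPrime (le_sup_right.trans hle) (h1 P hP.isPrime (le_sup_left.trans hle))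
  obtain ⟨e1, he1, e2, he2, he⟩ := Submodule.mem_sup.1
    (show (1 : 𝓞 E) ∈ A1 ⊔ A2 by rw [htop]; trivial)
  have hmem : ∀ x ∈ A1, ∀ y ∈ A2, ∃ a : 𝓞 E, x * y = m * a := by
    intro x hx y hy
    have h3 : x * y ∈ I := by
      rw [← hprod]
      exact Ideal.mul_mem_mul hx hy
    obtain ⟨a, ha⟩ := Ideal.mem_span_singleton'.1 h3
    exact ⟨a, by rw [← ha, mul_comm]⟩
  refine ⟨e1, e2, he, ?_, ?_⟩
  · intro P hPS hst
    have hnle : ¬ A2 ≤ P := fun h => h2 P hst.1.isPrime h hPS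
    obtain ⟨b, hb, hbP⟩ := SetLike.not_le_iff_exists.1 hnle
    obtain ⟨a, ha⟩ := hmem e1 he1 b hb
    refine ⟨b, hbP, a, ?_⟩
    have h3 := congrArg (io E) ha
    rw [map_mul, map_mul, map_natCast] at h3
    show io E b * io E e1 = m * io E a
    rw [← h3, mul_comm]
  · intro P hPS hst
    have hnle : ¬ A1 ≤ P := fun h => hPS (h1 P hst.1.isPrime h)
    obtain ⟨b, hb, hbP⟩ := SetLike.not_le_iff_exists.1 hnle
    obtain ⟨a, ha⟩ := hmem b hb e2 he2
    refine ⟨b, hbP, a, ?_⟩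
    have h3 := congrArg (io E) ha
    rw [map_mul, map_mul, map_natCast] at h3
    exact h3

end

end Pool.Agent.MP_8b8716_co_QP
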