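import Mathlib
import Pool.Agent.Lib.MP_8b8716_co_QP.Defs
import Pool.Agent.Lib.MP_8b8716_co_QP.PJ
import Pool.Agent.Lib.MP_8b8716_co_QG.GAM
import Pool.Agent.Lib.MP_8b8716_co_QG.GRR

set_option autoImplicit false

/-!
# MP_8b8716_co, project QP, module PAQ: the finite ring `AQ`
-/

noncomputable section

namespace Pool.Agent.MP_8b8716_co_QP

open NumberField IsDedekindDomain
open Pool.Agent.MP_8b8716_co_HN
open Pool.Agent.MP_8b8716_co_QG

section
variable {E : Subfield ℂ} [NumberField E] [Cj E] {S : Set (Ideal (𝓞 E))} {m : ℕ}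

theorem PAQ.clQ_eq_zero (r : RR E) : clQ E S m r = 0 ↔ r ∈ JJ E Sᶜ m :=
  Ideal.Quotient.eq_zero_iff_mem

/-- The class modulo `m` determines the class in `AQ`. -/
def PAQ.fac (E : Subfield ℂ) [NumberField E] [Cj E] (S : Set (Ideal (𝓞 E))) (m : ℕ) :
    AM E m →+* AQ E S m :=
  Ideal.Quotient.factor (S := Ideal.span {((m : ℕ) : RR E)}) (T := JJ E Sᶜ m) (by
    rw [Ideal.span_singleton_le_iff_mem]
    exact natCast_mem_JJ)

theorem PAQ.fac_cl (r : RR E) : PAQ.fac E S m (cl E m r) = clQ E S m r :=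
  Ideal.Quotient.factor_mk _ _

theorem PAQ.fac_surj : Function.Surjective (PAQ.fac E S m) := by
  intro h
  obtain ⟨r, rfl⟩ := Ideal.Quotient.mk_surjective h
  exact ⟨cl E m r, PAQ.fac_cl r⟩

/-- the homomorphism from the ring of integers -/
def PAQ.ff (E : Subfield ℂ) [NumberField E] [Cj E] (S : Set (Ideal (𝓞 E))) (m : ℕ) :
    𝓞 E →+* AQ E S m := (clQ E S m).comp (iR E)

theorem PAQ.ff_apply (a : 𝓞 E) : PAQ.ff E S m a = clQ E S m (iR E a) := rfl

theorem PAQ.ff_surj (hm : 0 < m) : Function.Surjective (PAQ.ff E S m) := by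
  intro h
  obtain ⟨b, rfl⟩ := PAQ.fac_surj h
  obtain ⟨a, ha⟩ := AM_surj hm b
  exact ⟨a, by rw [PAQ.ff_apply, ← PAQ.fac_cl, ha]⟩

theorem PAQ.ff_eq_fac (a : 𝓞 E) : PAQ.ff E S m a = PAQ.fac E S m (GAM.ff E m a) :=
  (PAQ.fac_cl _).symm

theorem AQ_finite (hm : 0 < m) : Finite (AQ E S m) := by
  have : Finite (AM E m) := AM_finite hm
  exact Finite.of_surjective _ (PAQ.fac_surj (E := E) (S := S) (m := m))

theorem AQ_lift (hm : 0 < m) (h : AQ E S m) : ∃ a : 𝓞 E, clQ E S m (iR E a) = h ∧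
    iR E a ∈ JJ E S m := by
  obtain ⟨a, rfl⟩ := PAQ.ff_surj hm h
  obtain ⟨e1, e2, he, h1, h2⟩ := exists_split (E := E) (S := S) hm
  refine ⟨e1 * a, ?_, ?_⟩
  · have h3 : clQ E S m (iR E e2) = 0 := (PAQ.clQ_eq_zero _).2 h2
    have h4 : clQ E S m (iR E e1) = 1 := by
      have h5 : clQ E S m (iR E (e1 + e2)) = 1 := by rw [he, map_one, map_one]
      rw [map_add, map_add, h3, add_zero] at h5
      exact h5
    rw [map_mul, map_mul, h4, one_mul]
    rfl
  · rw [map_mul]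
    exact Ideal.mul_mem_right _ _ h1

theorem barQ_cl (r : RR E) : barQ E S m (clQ E S m r) = clQ E S m (cR E r) :=
  Ideal.quotientMap_mk

theorem barQ_barQ (h : AQ E S m) : barQ E S m (barQ E S m h) = h := by
  obtain ⟨r, rfl⟩ := Ideal.Quotient.mk_surjective h
  change barQ E S m (barQ E S m (clQ E S m r)) = clQ E S m r
  rw [barQ_cl, barQ_cl]
  congr 1
  apply Subtype.ext
  exact cj_cj E (r : E)

theorem PAQ.barQ_ff (a : 𝓞 E) : barQ E S m (PAQ.ff E S m a) = PAQ.ff E S m (cO E a) := by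
  rw [PAQ.ff_apply, barQ_cl, PAQ.ff_apply]
  rfl

theorem PAQ.barQ_fac (b : AM E m) :
    barQ E S m (PAQ.fac E S m b) = PAQ.fac E S m (barA E m b) := by
  obtain ⟨r, rfl⟩ := Ideal.Quotient.mk_surjective b
  change barQ E S m (PAQ.fac E S m (cl E m r)) = PAQ.fac E S m (barA E m (cl E m r))
  rw [barA_cl, PAQ.fac_cl, PAQ.fac_cl, barQ_cl]

theorem AQ_hid (hm : 0 < m) (I : Ideal (AQ E S m)) (a : AQ E S m) (ha : a ∈ I) :
    barQ E S m a ∈ I := by
  obtain ⟨b, rfl⟩ := PAQ.fac_surj a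
  rw [PAQ.barQ_fac]
  exact AM_hid hm (I.comap (PAQ.fac E S m)) b ha

theorem AQ_max {Q : Set ℕ} (hB : BBS E S Q) (hm : 0 < m) (M : Ideal (AQ E S m))
    (hM : M.IsMaximal) :
    (∃ a, barQ E S m a - a ∉ M) ∧ ∃ q ∈ Q, Nat.card (AQ E S m ⧸ M) = q ^ 2 := by
  set P : Ideal (𝓞 E) := M.comap (PAQ.ff E S m) with hP
  have hPm : P.IsMaximal := Ideal.comap_isMaximal_of_surjective _ (PAQ.ff_surj hm)
  have hSt : Stab E P := stab_of_le hm P hPm fun a ha => by
    rw [hP, Ideal.mem_comap, PAQ.ff_eq_fac, GAM.ff_eq_zero ha, map_zero]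
    exact M.zero_mem
  have hmP : (m : 𝓞 E) ∈ P := by
    rw [hP, Ideal.mem_comap, PAQ.ff_eq_fac, GAM.ff_m, map_zero]
    exact M.zero_mem
  have hPS : P ∉ S := by
    intro hPS
    obtain ⟨e1, e2, he, h1, h2⟩ := exists_split (E := E) (S := S) hm
    have he2 : e2 ∈ P := by
      rw [hP, Ideal.mem_comap, PAQ.ff_apply, (PAQ.clQ_eq_zero _).2 h2]
      exact M.zero_mem
    obtain ⟨s, hs, a, h3⟩ := h1 P hPS hSt
    have h4 : s * e1 = m * a := by
      apply io_injective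
      rw [map_mul, map_mul, map_natCast]
      exact h3
    have h5 : s * e1 ∈ P := by
      rw [h4]
      exact Ideal.mul_mem_right _ _ hmP
    have he1 : e1 ∈ P := (hPm.isPrime.mem_or_mem h5).resolve_left hs
    apply hPm.ne_top
    rw [Ideal.eq_top_iff_one, ← he]
    exact P.add_mem he1 he2
  obtain ⟨⟨q, hq, hc⟩, a, ha⟩ := hB P hSt hPS
  refine ⟨⟨PAQ.ff E S m a, ?_⟩, q, hq, ?_⟩
  · rw [PAQ.barQ_ff, ← map_sub]
    exact ha
  · rw [← hc]
    apply Nat.card_congr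
    refine (Equiv.ofBijective (Ideal.quotientMap M (PAQ.ff E S m) (le_refl P)) ⟨?_, ?_⟩).symm
    · exact Ideal.quotientMap_injective
    · exact Ideal.quotientMap_surjective (PAQ.ff_surj hm)

end

end Pool.Agent.MP_8b8716_co_QP
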