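import Mathlib
import Pool.Agent.Lib.MP_8b8716_co_QG.GHil
import Pool.Agent.Lib.MP_8b8716_co_QG.GCo
import Pool.Agent.Lib.MP_8b8716_co_QG.GRR
import Pool.Agent.Lib.MP_8b8716_co_QP.Defs
import Pool.Agent.Lib.MP_8b8716_co_QP.PJ
import Pool.Agent.Lib.MP_8b8716_co_QP.PAQ

set_option autoImplicit false
set_option linter.unusedSectionVars false

/-!
# MP_8b8716_co, project QP, module PAp: weak approximation
-/

noncomputable section

namespace Pool.Agent.MP_8b8716_co_QP

open Complex MeasureTheory Filter Topology Set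
open NumberField IsDedekindDomain
open Pool.Agent.MP_8b8716_co_HN
open Pool.Agent.MP_8b8716_co_QG

namespace PAp

section
variable {E : Subfield ℂ} [NumberField E] [Cj E]

theorem eventually_ne (z : E) {m : ℕ} (hm : 0 < m) :
    ∀ᶠ n : ℕ in atTop, z + m * n ≠ 0 := by
  have h1 : {n : ℕ | z + m * n = 0}.Subsingleton := by
    intro n hn n' hn'
    have h2 : (m : E) * n = m * n' := by
      have h3 : z + m * n = z + m * n' := by
        rw [show z + (m : E) * n = 0 from hn, show z + (m : E) * n' = 0 from hn']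
      exact add_left_cancel h3
    have hm0 : (m : E) ≠ 0 := by exact_mod_cast hm.ne'
    have h4 : (n : E) = n' := mul_left_cancel₀ hm0 h2
    exact_mod_cast h4
  have h2 := h1.finite.eventually_cofinite_notMem
  rw [Nat.cofinite_eq_atTop] at h2
  exact h2

theorem norm_div_cj {z : E} (hz : z ≠ 0) : ‖((z / cj E z : E) : ℂ)‖ = 1 := by
  have hz' : (z : ℂ) ≠ 0 := fun h => hz (Subtype.ext h)
  have h1 : ((z / cj E z : E) : ℂ) = (z : ℂ) / (starRingEnd ℂ) (z : ℂ) := rfl
  rw [h1, norm_div, Complex.norm_conj, div_self (norm_ne_zero_iff.2 hz')]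

theorem cj_ne_zero {z : E} (hz : z ≠ 0) : cj E z ≠ 0 := by
  intro h
  apply hz
  rw [← cj_cj E z, h, map_zero]

end

end PAp

section
variable {E : Subfield ℂ} [NumberField E] [Cj E] {S : Set (Ideal (𝓞 E))} {m : ℕ}

theorem approxQ (hI : I ∈ E) {Q : Set ℕ} (hB : BBS E S Q) (hm : 0 < m) (u : AQ E S m)
    (hu : u * barQ E S m u = 1) {δ : ℝ} (hδ : 0 < δ) : ∃ c : E, ‖(c : ℂ)‖ = 1 ∧
      nrm E (c - 1) < δ ∧ ∃ h : c ∈ RR E, clQ E S m ⟨c, h⟩ = u ∧
        (⟨c, h⟩ - 1 : RR E) ∈ JJ E S m := by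
  have hfin : Finite (AQ E S m) := AQ_finite hm
  obtain ⟨v, hv⟩ := hil_unit (barQ E S m) barQ_barQ (fun M _ => AQ_hid hm M)
    (fun M hM => (AQ_max hB hm M hM).1) u
  set w := v + u * barQ E S m v with hw
  have huw : u * barQ E S m w = w := by
    have h1 : barQ E S m w = barQ E S m v + barQ E S m u * v := by
      rw [hw, map_add, map_mul, barQ_barQ]
    rw [h1]
    calc u * (barQ E S m v + barQ E S m u * v)
        = u * barQ E S m v + (u * barQ E S m u) * v := by ring
      _ = w := by rw [hu, one_mul, hw]; ring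
  obtain ⟨w0, hw0, hw0J⟩ := AQ_lift hm w
  obtain ⟨e1, e2, he, he1, he2⟩ := exists_split (E := E) (S := S) hm
  have hzero : ∀ r : RR E, r ∈ JJ E Sᶜ m → clQ E S m r = 0 := fun r hr =>
    Ideal.Quotient.eq_zero_iff_mem.2 hr
  let w1 : 𝓞 E := w0 + e2
  have h1cl : clQ E S m (iR E w1) = w := by
    show clQ E S m (iR E (w0 + e2)) = w
    rw [map_add, map_add, hw0, hzero _ he2, add_zero]
  have h1J : iR E w1 - 1 ∈ JJ E S m := by
    have h2 : iR E w1 - 1 = iR E w0 - iR E e1 := by
      have h3 : iR E e1 + iR E e2 = 1 := by rw [← map_add, he, map_one]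
      show iR E (w0 + e2) - 1 = _
      rw [map_add, ← h3]; ring
    rw [h2]
    exact (JJ E S m).sub_mem hw0J he1
  have hlim := inv_tendsto (cj E (io E w1)) (io E w1 - cj E (io E w1))
  have hlim2 : Tendsto (fun n : ℕ => nrm E ((io E w1 - cj E (io E w1)) *
      (cj E (io E w1) + ((m * n : ℕ) : E))⁻¹)) atTop (𝓝 0) :=
    hlim.comp (tendsto_id.const_mul_atTop' hm)
  obtain ⟨n, hn1, hn2⟩ := ((hlim2.eventually (gt_mem_nhds hδ)).and
    (PAp.eventually_ne (io E w1) hm)).exists
  set wn : 𝓞 E := w1 + ((m * n : ℕ) : 𝓞 E) with hwn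
  have hion : io E wn = io E w1 + m * n := by
    rw [hwn, map_add, map_natCast]
    push_cast
    ring
  have hcjn : cj E (io E wn) = cj E (io E w1) + m * n := by
    rw [hion, map_add, map_mul, map_natCast, map_natCast]
  have hne : io E wn ≠ 0 := by rw [hion]; exact hn2
  have hcne : cj E (io E wn) ≠ 0 := PAp.cj_ne_zero hne
  have hiRn : iR E wn = iR E w1 + (m : RR E) * (n : RR E) := by
    rw [hwn, map_add, map_natCast]
    push_cast
    ring
  have hc1 := PAp.norm_div_cj hne
  have hcR := norm_one_mem_RR hc1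
  have hprod : (⟨io E wn / cj E (io E wn), hcR⟩ : RR E) * cR E (iR E wn) = iR E wn := by
    apply Subtype.ext
    show io E wn / cj E (io E wn) * cj E (io E wn) = io E wn
    rw [div_mul_cancel₀ _ hcne]
  refine ⟨io E wn / cj E (io E wn), hc1, ?_, hcR, ?_, ?_⟩
  · have h2 : io E wn / cj E (io E wn) - 1 =
        (io E w1 - cj E (io E w1)) * (cj E (io E w1) + ((m * n : ℕ) : E))⁻¹ := by
      have h3 : cj E (io E w1) + ((m * n : ℕ) : E) = cj E (io E wn) := by
        rw [hcjn]; push_cast; ring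
      rw [h3, ← div_eq_mul_inv, eq_div_iff hcne, sub_mul, div_mul_cancel₀ _ hcne, one_mul, hcjn,
        hion]
      ring
    rw [h2]
    exact hn1
  · have hclwn : clQ E S m (iR E wn) = w := by
      rw [hiRn, map_add, h1cl, hzero _ ((JJ E Sᶜ m).mul_mem_right _ natCast_mem_JJ), add_zero]
    have h2 := congrArg (clQ E S m) hprod
    rw [map_mul, ← barQ_cl, hclwn, ← huw] at h2
    rw [huw] at h2
    have h3 : IsUnit (barQ E S m w) := hv.map (barQ E S m)
    have h4 : clQ E S m ⟨io E wn / cj E (io E wn), hcR⟩ * barQ E S m w = u * barQ E S m w := by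
      rw [huw]; exact h2
    exact h3.mul_right_cancel h4
  · have hJn : iR E wn - 1 ∈ JJ E S m := by
      rw [hiRn, add_sub_right_comm]
      exact (JJ E S m).add_mem h1J ((JJ E S m).mul_mem_right _ natCast_mem_JJ)
    have hJn' : cR E (iR E wn) - 1 ∈ JJ E S m := by
      have := cR_mem_JJ E hJn
      rwa [map_sub, map_one] at this
    have h2 : (⟨io E wn / cj E (io E wn), hcR⟩ - 1 : RR E) =
        (iR E wn - 1) - ⟨io E wn / cj E (io E wn), hcR⟩ * (cR E (iR E wn) - 1) := by
      rw [mul_sub, hprod, mul_one]; ring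
    rw [h2]
    exact (JJ E S m).sub_mem hJn ((JJ E S m).mul_mem_left _ hJn')

end

end Pool.Agent.MP_8b8716_co_QP
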