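import Mathlib
import Pool.Agent.Lib.MP_8b8716_co_QP.Defs
import Pool.Agent.Lib.MP_8b8716_co_QG.GCo

set_option autoImplicit false
set_option linter.unusedSectionVars false

/-!
# MP_8b8716_co, project QP: the infinite places
-/

noncomputable section

namespace Pool.Agent.MP_8b8716_co_QP

open Complex MeasureTheory Filter Topology Set
open NumberField IsDedekindDomain
open Pool.Agent.MP_8b8716_co_HN
open Pool.Agent.MP_8b8716_co_QG

section
variable {E : Subfield ℂ} [NumberField E] [Cj E] {S : Set (Ideal (𝓞 E))} {m : ℕ}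

/-- the constant in the bound of the norm of a product -/
def PArc.KK (E : Subfield ℂ) [NumberField E] : ℝ := ∑ j, ∑ i, nrm E (om E j * om E i)

theorem PArc.KK_nonneg : 0 ≤ PArc.KK E :=
  Finset.sum_nonneg fun _ _ => Finset.sum_nonneg fun _ _ => nrm_nonneg _

theorem PArc.nrm_mul (z w : E) : nrm E (z * w) ≤ PArc.KK E * nrm E z * nrm E w := by
  have h1 := GCo.nrm_mul_le z w
  have h2 : ∑ j, nrm E (z * om E j) ≤ PArc.KK E * nrm E z := by
    unfold PArc.KK
    rw [Finset.sum_mul]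
    refine Finset.sum_le_sum fun j _ => ?_
    rw [mul_comm z]
    exact GCo.nrm_mul_le _ _
  exact h1.trans (mul_le_mul_of_nonneg_right h2 (nrm_nonneg _))

/-- bounded times null is null -/
theorem PArc.tendsto_mul {f g : ℕ → E} {C : ℝ} (hf : ∀ᶠ n in atTop, nrm E (f n) ≤ C)
    (hg : Tendsto (fun n => nrm E (g n)) atTop (𝓝 0)) :
    Tendsto (fun n => nrm E (f n * g n)) atTop (𝓝 0) := by
  have h1 : Tendsto (fun n => PArc.KK E * C * nrm E (g n)) atTop (𝓝 0) := by
    simpa using hg.const_mul (PArc.KK E * C)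
  refine squeeze_zero' (Eventually.of_forall fun n => nrm_nonneg _) ?_ h1
  filter_upwards [hf] with n hn
  refine (PArc.nrm_mul _ _).trans ?_
  exact mul_le_mul_of_nonneg_right (mul_le_mul_of_nonneg_left hn PArc.KK_nonneg) (nrm_nonneg _)

theorem PArc.tendsto_add {f g : ℕ → E} (hf : Tendsto (fun n => nrm E (f n)) atTop (𝓝 0))
    (hg : Tendsto (fun n => nrm E (g n)) atTop (𝓝 0)) :
    Tendsto (fun n => nrm E (f n + g n)) atTop (𝓝 0) := by
  have h1 : Tendsto (fun n => nrm E (f n) + nrm E (g n)) atTop (𝓝 0) := by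
    simpa using hf.add hg
  exact squeeze_zero (fun n => nrm_nonneg _) (fun n => nrm_add_le _ _) h1

theorem PArc.nrm_one_pos : 0 < nrm E (1 : E) := by
  rcases (nrm_nonneg (E := E) 1).lt_or_eq with h | h
  · exact h
  exfalso
  have h1 : ∀ j, co E (1 : E) j = 0 := by
    intro j
    unfold nrm at h
    have h2 := (Finset.sum_eq_zero_iff_of_nonneg
      (s := Finset.univ) (f := fun j => |(co E (1 : E) j : ℝ)|) fun _ _ => abs_nonneg _).1 h.symm j
      (Finset.mem_univ j)
    have h3 : ((co E (1 : E) j : ℚ) : ℝ) = 0 := abs_eq_zero.1 h2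
    exact_mod_cast h3
  have h2 := sum_co (1 : E)
  rw [Finset.sum_congr rfl fun j _ => by rw [h1 j]] at h2
  simp at h2

/-- a convergent sequence of rational numbers is bounded -/
theorem PArc.nrm_rat_bdd {x : ℝ} {r : ℕ → ℚ} (hr : Tendsto (fun n => (r n : ℝ)) atTop (𝓝 x))
    (z : E) : ∀ᶠ n in atTop, nrm E ((r n : E) * z) ≤ (|x| + 1) * nrm E z := by
  have h1 : Tendsto (fun n => |(r n : ℝ)|) atTop (𝓝 |x|) := hr.abs
  filter_upwards [h1.eventually (gt_mem_nhds (by linarith : |x| < |x| + 1))] with n hn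
  rw [nrm_smul]
  exact mul_le_mul_of_nonneg_right hn.le (nrm_nonneg _)

theorem arc_part (hI : I ∈ E) {x y : ℝ} (hxy : x ^ 2 + y ^ 2 = 1) (hx : x ≠ -1) {X Y : ℕ → E}
    {r s : ℕ → ℚ} (hr : Tendsto (fun n => (r n : ℝ)) atTop (𝓝 x))
    (hs : Tendsto (fun n => (s n : ℝ)) atTop (𝓝 y))
    (hX : Tendsto (fun n => nrm E (X n - r n)) atTop (𝓝 0))
    (hY : Tendsto (fun n => nrm E (Y n - s n)) atTop (𝓝 0)) :
    Tendsto (fun n => nrm E ((1 - X n ^ 2 - Y n ^ 2) * (1 + X n - ⟨I, hI⟩ * Y n)⁻¹)) atTop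
      (𝓝 0) ∧ ∀ᶠ n in atTop, 1 + X n - ⟨I, hI⟩ * Y n ≠ 0 := by
  set J : E := ⟨I, hI⟩ with hJ
  have hJJ : J * J = -1 := by
    apply Subtype.ext
    simp [hJ]
  have hx1 : 0 < 1 + x := by
    have h1 : -1 ≤ x := by nlinarith [sq_nonneg y]
    rcases h1.lt_or_eq with h | h
    · linarith
    · exact absurd h.symm hx
  -- the rational number `N`
  set N : ℕ → ℚ := fun n => (1 + r n) ^ 2 + s n ^ 2 with hN
  have hNlim : Tendsto (fun n => (N n : ℝ)) atTop (𝓝 ((1 + x) ^ 2 + y ^ 2)) := by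
    have h1 : Tendsto (fun n => (1 + (r n : ℝ)) ^ 2 + (s n : ℝ) ^ 2) atTop
        (𝓝 ((1 + x) ^ 2 + y ^ 2)) := ((hr.const_add 1).pow 2).add (hs.pow 2)
    refine h1.congr fun n => ?_
    simp [hN]
  have hNpos : 0 < (1 + x) ^ 2 + y ^ 2 := by positivity
  have hN0 : ∀ᶠ n in atTop, (N n : ℝ) ≠ 0 := by
    filter_upwards [hNlim.eventually (lt_mem_nhds hNpos)] with n hn
    exact hn.ne'
  -- the inverse of `rho`
  set q : ℕ → ℚ := fun n => (1 + r n) / N n with hq
  set t : ℕ → ℚ := fun n => s n / N n with ht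
  have hqlim : Tendsto (fun n => (q n : ℝ)) atTop (𝓝 ((1 + x) / ((1 + x) ^ 2 + y ^ 2))) := by
    have h1 : Tendsto (fun n => (1 + (r n : ℝ)) / (N n : ℝ)) atTop
        (𝓝 ((1 + x) / ((1 + x) ^ 2 + y ^ 2))) := (hr.const_add 1).div hNlim hNpos.ne'
    refine h1.congr fun n => ?_
    simp [hq]
  have htlim : Tendsto (fun n => (t n : ℝ)) atTop (𝓝 (y / ((1 + x) ^ 2 + y ^ 2))) := by
    have h1 : Tendsto (fun n => (s n : ℝ) / (N n : ℝ)) atTop
        (𝓝 (y / ((1 + x) ^ 2 + y ^ 2))) := hs.div hNlim hNpos.ne'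
    refine h1.congr fun n => ?_
    simp [ht]
  set v : ℕ → E := fun n => (q n : E) * 1 + (t n : E) * J with hv
  obtain ⟨C, hC⟩ : ∃ C : ℝ, ∀ᶠ n in atTop, nrm E (v n) ≤ C := by
    refine ⟨(|(1 + x) / ((1 + x) ^ 2 + y ^ 2)| + 1) * nrm E (1 : E) +
      (|y / ((1 + x) ^ 2 + y ^ 2)| + 1) * nrm E J, ?_⟩
    filter_upwards [PArc.nrm_rat_bdd hqlim (1 : E), PArc.nrm_rat_bdd htlim J] with n h1 h2
    exact (nrm_add_le _ _).trans (add_le_add h1 h2)
  have hvr : ∀ᶠ n in atTop, v n * (1 + (r n : E) - J * s n) = 1 := by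
    filter_upwards [hN0] with n hn
    have hn' : (N n : E) ≠ 0 := by
      intro h
      apply hn
      have h1 : N n = 0 := by exact_mod_cast h
      rw [h1]
      simp
    have h1 : (q n : E) * N n = 1 + r n := by
      simp only [hq]
      push_cast
      rw [div_mul_cancel₀]
      exact hn'
    have h2 : (t n : E) * N n = s n := by
      simp only [ht]
      push_cast
      rw [div_mul_cancel₀]
      exact hn'
    have h3 : (N n : E) = (1 + (r n : E)) ^ 2 + (s n : E) ^ 2 := by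
      simp only [hN]
      push_cast
      ring
    apply mul_right_cancel₀ hn'
    simp only [hv]
    linear_combination (1 + (r n : E) - J * s n) * h1 + J * (1 + (r n : E) - J * s n) * h2 -
      (s n : E) ^ 2 * hJJ - h3
  -- the difference
  set e : ℕ → E := fun n => (X n - r n) + (-J) * (Y n - s n) with he
  have helim : Tendsto (fun n => nrm E (e n)) atTop (𝓝 0) :=
    PArc.tendsto_add hX (PArc.tendsto_mul (f := fun _ => -J) (C := nrm E (-J))
      (Eventually.of_forall fun _ => le_rfl) hY)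
  set u : ℕ → E := fun n => v n * e n with hu
  have hulim : Tendsto (fun n => nrm E (u n)) atTop (𝓝 0) := PArc.tendsto_mul hC helim
  have hD : ∀ᶠ n in atTop, v n * (1 + X n - J * Y n) = 1 + u n := by
    filter_upwards [hvr] with n hn
    simp only [hu, he]
    linear_combination hn
  have h1pos := PArc.nrm_one_pos (E := E)
  have hu1 : ∀ᶠ n in atTop, nrm E (u n) < nrm E (1 : E) :=
    hulim.eventually (gt_mem_nhds h1pos)
  have hK1 : 0 < PArc.KK E + 1 := by
    have := PArc.KK_nonneg (E := E)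
    linarith
  have hu2 : ∀ᶠ n in atTop, nrm E (u n) < 1 / (2 * (PArc.KK E + 1)) :=
    hulim.eventually (gt_mem_nhds (by positivity))
  have hne : ∀ᶠ n in atTop, 1 + X n - J * Y n ≠ 0 := by
    filter_upwards [hD, hu1] with n h1 h2 h3
    rw [h3, mul_zero] at h1
    have h4 : u n = -1 := by linear_combination -h1
    rw [h4, nrm_neg] at h2
    exact lt_irrefl _ h2
  refine ⟨?_, hne⟩
  -- the inverse is bounded
  have hinv : ∀ᶠ n in atTop, nrm E ((1 + X n - J * Y n)⁻¹) ≤
      PArc.KK E * C * (2 * nrm E (1 : E)) := by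
    filter_upwards [hD, hu2, hne, hC] with n h1 h2 h3 h4
    have h5 : (1 + u n) ≠ 0 := by
      intro h
      rw [h] at h1
      rcases mul_eq_zero.1 h1 with h6 | h6
      · have h7 : u n = 0 := by
          simp only [hu]
          rw [h6, zero_mul]
        rw [h7] at h
        simp at h
      · exact h3 h6
    have h6 : (1 + X n - J * Y n)⁻¹ = v n * (1 + u n)⁻¹ := by
      rw [← h1, mul_inv, ← mul_assoc, mul_inv_cancel₀, one_mul]
      intro h7
      rw [h7, zero_mul] at h1
      exact h5 h1.symm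
    have h7 : nrm E ((1 + u n)⁻¹) ≤ 2 * nrm E (1 : E) := by
      set w := (1 + u n)⁻¹ with hw
      have h8 : w = 1 + -(u n * w) := by
        have : (1 + u n) * w = 1 := mul_inv_cancel₀ h5
        linear_combination this
      have h9 : nrm E w ≤ nrm E (1 : E) + PArc.KK E * nrm E (u n) * nrm E w := by
        conv_lhs => rw [h8]
        refine (nrm_add_le _ _).trans ?_
        rw [nrm_neg]
        have := PArc.nrm_mul (u n) w
        linarith
      have h10 : PArc.KK E * nrm E (u n) ≤ 1 / 2 := by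
        have h11 : (PArc.KK E + 1) * nrm E (u n) < 1 / 2 := by
          have := (lt_div_iff₀ (by positivity : 0 < 2 * (PArc.KK E + 1))).1 h2
          linarith
        have := nrm_nonneg (u n)
        nlinarith
      have h12 := nrm_nonneg w
      nlinarith
    rw [h6]
    refine (PArc.nrm_mul _ _).trans ?_
    have hK := PArc.KK_nonneg (E := E)
    have hC0 : 0 ≤ C := (nrm_nonneg _).trans h4
    have h8 := nrm_nonneg (v n)
    have h9 := nrm_nonneg ((1 + u n)⁻¹)
    exact mul_le_mul (mul_le_mul_of_nonneg_left h4 hK) h7 h9 (by positivity)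
  -- the numerator tends to zero
  have hrbd : ∀ᶠ n in atTop, nrm E (r n : E) ≤ (|x| + 1) * nrm E (1 : E) := by
    filter_upwards [PArc.nrm_rat_bdd hr (1 : E)] with n hn
    rwa [mul_one] at hn
  have hsbd : ∀ᶠ n in atTop, nrm E (s n : E) ≤ (|y| + 1) * nrm E (1 : E) := by
    filter_upwards [PArc.nrm_rat_bdd hs (1 : E)] with n hn
    rwa [mul_one] at hn
  have key : ∀ (Z : ℕ → E) (a : ℕ → ℚ) (B : ℝ),
      Tendsto (fun n => nrm E (Z n - a n)) atTop (𝓝 0) →
      (∀ᶠ n in atTop, nrm E (a n : E) ≤ B) →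
      Tendsto (fun n => nrm E (Z n ^ 2 - (a n : E) ^ 2)) atTop (𝓝 0) := by
    intro Z a B hZ ha
    have h1 : ∀ᶠ n in atTop, nrm E (Z n + a n) ≤ 1 + (B + B) := by
      filter_upwards [ha, hZ.eventually (gt_mem_nhds zero_lt_one)] with n h1 h2
      have h3 : Z n + a n = (Z n - a n) + ((a n : E) + a n) := by ring
      rw [h3]
      refine (nrm_add_le _ _).trans (add_le_add h2.le ?_)
      exact (nrm_add_le _ _).trans (add_le_add h1 h1)
    have h2 := PArc.tendsto_mul h1 hZ
    refine h2.congr fun n => ?_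
    congr 1
    ring
  have hXX := key X r _ hX hrbd
  have hYY := key Y s _ hY hsbd
  have hrs : Tendsto (fun n => nrm E (1 - (r n : E) ^ 2 - (s n : E) ^ 2)) atTop (𝓝 0) := by
    have h1 : Tendsto (fun n => |(((1 - r n ^ 2 - s n ^ 2 : ℚ)) : ℝ)| * nrm E (1 : E)) atTop
        (𝓝 0) := by
      have h2 : Tendsto (fun n => |(1 : ℝ) - (r n : ℝ) ^ 2 - (s n : ℝ) ^ 2| * nrm E (1 : E)) atTop
          (𝓝 (|1 - x ^ 2 - y ^ 2| * nrm E (1 : E))) :=
        ((((hr.pow 2).const_sub 1).sub (hs.pow 2)).abs).mul_const _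
      have h3 : |1 - x ^ 2 - y ^ 2| * nrm E (1 : E) = 0 := by
        have : 1 - x ^ 2 - y ^ 2 = 0 := by linarith
        rw [this, abs_zero, zero_mul]
      rw [h3] at h2
      refine h2.congr fun n => ?_
      push_cast
      rfl
    refine h1.congr fun n => ?_
    rw [← nrm_smul, mul_one]
    push_cast
    rfl
  have hnum : Tendsto (fun n => nrm E (1 - X n ^ 2 - Y n ^ 2)) atTop (𝓝 0) := by
    have h1 := PArc.tendsto_add hrs (PArc.tendsto_add (f := fun n => -(X n ^ 2 - (r n : E) ^ 2))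
      (g := fun n => -(Y n ^ 2 - (s n : E) ^ 2)) (by simpa only [nrm_neg] using hXX)
      (by simpa only [nrm_neg] using hYY))
    refine h1.congr fun n => ?_
    congr 1
    ring
  have h1 := PArc.tendsto_mul hinv hnum
  refine h1.congr fun n => ?_
  rw [mul_comm]

end

end Pool.Agent.MP_8b8716_co_QP
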