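import Mathlib
import Pool.Agent.Lib.MP_8b8716_co_QP.Defs

/-!
# MP_8b8716_co, project QP, module PFin: the finite places
-/

set_option autoImplicit false

noncomputable section

namespace Pool.Agent.MP_8b8716_co_QP

open Complex MeasureTheory Filter Topology Set
open NumberField IsDedekindDomain
open Pool.Agent.MP_8b8716_co_HN
open Pool.Agent.MP_8b8716_co_QG

/-! ### Module PFin : the finite places -/

namespace PFin

variable {L : Subfield ℝ} [NumberField L]

theorem coe_eq (v : HeightOneSpectrum (𝓞 L)) (x : L) :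
    ((x : L) : v.adicCompletion L) = algebraMap L (v.adicCompletion L) x := rfl

theorem isTop (v : HeightOneSpectrum (𝓞 L)) : IsTopologicalRing (v.adicCompletion L) :=
  inferInstance

theorem isTopD (v : HeightOneSpectrum (𝓞 L)) : IsTopologicalDivisionRing (v.adicCompletion L) :=
  inferInstance

theorem cz (v : HeightOneSpectrum (𝓞 L)) : CharZero (v.adicCompletion L) :=
  charZero_of_injective_algebraMap (algebraMap L (v.adicCompletion L)).injective

theorem map_A {K K' : Type*} [Field K] [Field K'] (f : K →+* K') (x y : K) :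
    f ((1 - x ^ 2 - y ^ 2) * (1 + x) / ((1 + x) ^ 2 + y ^ 2)) =
      (1 - f x ^ 2 - f y ^ 2) * (1 + f x) / ((1 + f x) ^ 2 + f y ^ 2) := by
  simp only [map_div₀, map_mul, map_sub, map_add, map_pow, map_one]

theorem map_B {K K' : Type*} [Field K] [Field K'] (f : K →+* K') (x y : K) :
    f ((1 - x ^ 2 - y ^ 2) * y / ((1 + x) ^ 2 + y ^ 2)) =
      (1 - f x ^ 2 - f y ^ 2) * f y / ((1 + f x) ^ 2 + f y ^ 2) := by
  simp only [map_div₀, map_mul, map_sub, map_add, map_pow, map_one]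

theorem map_D {K K' : Type*} [Field K] [Field K'] (f : K →+* K') (x y : K) :
    f ((1 + x) ^ 2 + y ^ 2) = (1 + f x) ^ 2 + f y ^ 2 := by
  simp only [map_add, map_pow, map_one]

end PFin

section
variable {L : Subfield ℝ} [NumberField L]

theorem null_part (v : HeightOneSpectrum (𝓞 L)) {X : ℕ → L}
    (hX : Tendsto (fun n => ((X n : L) : v.adicCompletion L)) atTop (𝓝 0)) {m : ℕ} (hm : 0 < m) :
    ∀ᶠ n in atTop, ∃ s : 𝓞 L, s ∉ v.asIdeal ∧ ∃ a : 𝓞 L, (s : L) * X n = m * a := by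
  have h1 : Tendsto (fun n => (algebraMap L (v.adicCompletion L) ((m : L)⁻¹)) *
      ((X n : L) : v.adicCompletion L)) atTop (𝓝 (algebraMap L (v.adicCompletion L) ((m : L)⁻¹) * 0)) :=
    hX.const_mul _
  rw [mul_zero] at h1
  have h2 : {x : v.adicCompletion L | Valued.v x ≤ 1} ∈ 𝓝 (0 : v.adicCompletion L) := by
    have := (Valued.isOpen_integer (v.adicCompletion L)).mem_nhds (x := 0) (by simp)
    exact this
  filter_upwards [h1.eventually h2] with n hn
  have h3 : v.valuation L ((m : L)⁻¹ * X n) ≤ 1 := by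
    rw [← HeightOneSpectrum.adicCompletion.valued_coe, PFin.coe_eq, map_mul]
    exact hn
  obtain ⟨a, ⟨s, hs⟩, h4⟩ := HeightOneSpectrum.exists_primeCompl_mul_eq_of_integer v _ h3
  refine ⟨s, hs, a, ?_⟩
  have hm' : (m : L) ≠ 0 := Nat.cast_ne_zero.2 hm.ne'
  change algebraMap (𝓞 L) L s * X n = m * algebraMap (𝓞 L) L a
  rw [← h4]
  field_simp

theorem fin_part (v : HeightOneSpectrum (𝓞 L)) {ξ η : v.adicCompletion L}
    (h : ξ ^ 2 + η ^ 2 = 1) (hξ : ξ ≠ -1) {X Y : ℕ → L}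
    (hX : Tendsto (fun n => ((X n : L) : v.adicCompletion L)) atTop (𝓝 ξ))
    (hY : Tendsto (fun n => ((Y n : L) : v.adicCompletion L)) atTop (𝓝 η)) {m : ℕ}
    (hm : 0 < m) :
    ∀ᶠ n in atTop, (1 + X n) ^ 2 + Y n ^ 2 ≠ 0 ∧
      (∃ s : 𝓞 L, s ∉ v.asIdeal ∧ ∃ a : 𝓞 L, (s : L) *
        ((1 - X n ^ 2 - Y n ^ 2) * (1 + X n) / ((1 + X n) ^ 2 + Y n ^ 2)) = m * a) ∧
      (∃ s : 𝓞 L, s ∉ v.asIdeal ∧ ∃ a : 𝓞 L, (s : L) *
        ((1 - X n ^ 2 - Y n ^ 2) * Y n / ((1 + X n) ^ 2 + Y n ^ 2)) = m * a) := by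
  have hcz := PFin.cz v
  have hden : (1 + ξ) ^ 2 + η ^ 2 ≠ 0 := by
    have e : (1 + ξ) ^ 2 + η ^ 2 = 2 * (1 + ξ) := by linear_combination h
    rw [e]
    intro h0
    rcases mul_eq_zero.1 h0 with h1 | h1
    · exact two_ne_zero h1
    · exact hξ (by linear_combination h1)
  have hnum : 1 - ξ ^ 2 - η ^ 2 = 0 := by linear_combination -h
  have hD : Tendsto (fun n => (1 + ((X n : L) : v.adicCompletion L)) ^ 2 +
      ((Y n : L) : v.adicCompletion L) ^ 2) atTop (𝓝 ((1 + ξ) ^ 2 + η ^ 2)) :=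
    ((hX.const_add 1).pow 2).add (hY.pow 2)
  have hN : Tendsto (fun n => 1 - ((X n : L) : v.adicCompletion L) ^ 2 -
      ((Y n : L) : v.adicCompletion L) ^ 2) atTop (𝓝 (1 - ξ ^ 2 - η ^ 2)) :=
    ((hX.pow 2).const_sub 1).sub (hY.pow 2)
  have hA := (hN.mul (hX.const_add 1)).div hD hden
  have hB := (hN.mul hY).div hD hden
  rw [hnum, zero_mul, zero_div] at hA hB
  have hA' : Tendsto (fun n => (((1 - X n ^ 2 - Y n ^ 2) * (1 + X n) /
      ((1 + X n) ^ 2 + Y n ^ 2) : L) : v.adicCompletion L)) atTop (𝓝 0) := by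
    refine hA.congr fun n => ?_
    exact (PFin.map_A (algebraMap L (v.adicCompletion L)) (X n) (Y n)).symm
  have hB' : Tendsto (fun n => (((1 - X n ^ 2 - Y n ^ 2) * Y n /
      ((1 + X n) ^ 2 + Y n ^ 2) : L) : v.adicCompletion L)) atTop (𝓝 0) := by
    refine hB.congr fun n => ?_
    exact (PFin.map_B (algebraMap L (v.adicCompletion L)) (X n) (Y n)).symm
  filter_upwards [null_part v hA' hm, null_part v hB' hm, hD.eventually_ne hden] with n h1 h2 h3
  refine ⟨?_, h1, h2⟩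
  intro h0
  apply h3
  have h4 := congrArg (algebraMap L (v.adicCompletion L)) h0
  rw [PFin.map_D, map_zero] at h4
  exact h4

end

end Pool.Agent.MP_8b8716_co_QP
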