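import Mathlib
import Pool.Agent.Lib.MP_8b8716_co_QG.Defs
import Pool.Agent.Lib.MP_8b8716_co_QG.GCo
import Pool.Agent.Lib.MP_8b8716_co_QG.GRR
import Pool.Agent.Lib.MP_8b8716_co_QP.Defs

/-!
# MP_8b8716_co, project QP, module PSeq: strong approximation
-/

set_option autoImplicit false

noncomputable section

namespace Pool.Agent.MP_8b8716_co_QP

open Complex MeasureTheory Filter Topology Set
open NumberField IsDedekindDomain
open Pool.Agent.MP_8b8716_co_HN
open Pool.Agent.MP_8b8716_co_QG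

namespace PSeq

variable {L : Subfield ℝ} [NumberField L]

theorem tendsto_zero (v : HeightOneSpectrum (𝓞 L)) {z : ℕ → v.adicCompletion L}
    (h : ∀ n : ℕ, Valued.v (z n) ≤ WithZero.exp (-(n : ℤ))) : Tendsto z atTop (𝓝 0) := by
  simp only [(Valued.hasBasis_nhds_zero _ _).tendsto_right_iff, mem_ofPred_eq, eventually_atTop,
    forall_const]
  intro y
  have h1 : (WithZero.exp (-1 : ℤ)) < 1 := by
    rw [← WithZero.exp_zero, WithZero.exp_lt_exp]
    norm_num
  obtain ⟨n, hn⟩ := exists_pow_lt₀ h1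
    (Units.map (MonoidWithZeroHom.ValueGroup₀.embedding
      (f := (.ofClass (Valued.v : Valuation (v.adicCompletion L) (WithZero (Multiplicative ℤ)))))) y)
  refine ⟨n, fun m hm ↦ ?_⟩
  rw [Valuation.restrict_lt_iff_lt_embedding]
  refine ((h m).trans ?_).trans_lt hn
  rw [← WithZero.exp_nsmul, WithZero.exp_le_exp]
  simp only [nsmul_eq_mul]
  have : (n : ℤ) ≤ m := by exact_mod_cast hm
  linarith

theorem exists_near (v : HeightOneSpectrum (𝓞 L)) (ξ : v.adicCompletion L) (n : ℕ) :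
    ∃ y : L, Valued.v (((y : L) : v.adicCompletion L) - ξ) ≤ WithZero.exp (-(n : ℤ)) := by
  obtain ⟨x, hx⟩ := HeightOneSpectrum.valuedAdicCompletion_surjective L v
    (WithZero.exp (-(n : ℤ)))
  have hx0 : (Valued.v.restrict x) ≠ 0 := by
    intro h0
    have h1 : Valued.v x = 0 := by
      have := congrArg MonoidWithZeroHom.ValueGroup₀.embedding h0
      rwa [Valuation.embedding_restrict, map_zero] at this
    rw [h1] at hx
    exact WithZero.exp_ne_zero hx.symm
  have hn : {y : v.adicCompletion L | Valued.v.restrict (y - ξ) < Valued.v.restrict x} ∈ 𝓝 ξ := by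
    rw [Valued.mem_nhds]
    exact ⟨Units.mk0 _ hx0, subset_rfl⟩
  obtain ⟨y, h1⟩ := (HeightOneSpectrum.denseRange_algebraMap (K := L) v).exists_mem_open
    (isOpen_interior (s := {y : v.adicCompletion L |
      Valued.v.restrict (y - ξ) < Valued.v.restrict x})) ⟨ξ, mem_interior_iff_mem_nhds.2 hn⟩
  have h2 := interior_subset h1
  refine ⟨y, ?_⟩
  have h3 := (Valuation.restrict_lt_iff _).1 h2
  rw [hx] at h3
  exact h3.le

/-- the valuation of a quotient of integers -/
theorem val_div_le (w : HeightOneSpectrum (𝓞 L)) {d γ : 𝓞 L} {c k n : ℕ}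
    (h1 : WithZero.exp (-(c : ℤ)) ≤ w.intValuation d) (h2 : γ ∈ w.asIdeal ^ k) (h3 : n + c ≤ k) :
    w.valuation L ((γ : L) / (d : L)) ≤ WithZero.exp (-(n : ℤ)) := by
  have h4 := (w.intValuation_le_pow_iff_mem γ k).2 h2
  have e1 : w.valuation L (γ : L) = w.intValuation γ := HeightOneSpectrum.valuation_of_algebraMap w γ
  have e2 : w.valuation L (d : L) = w.intValuation d := HeightOneSpectrum.valuation_of_algebraMap w d
  have h5 : 0 < w.intValuation d := lt_of_lt_of_le (by simp) h1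
  rw [map_div₀, e1, e2, div_le_iff₀ h5]
  refine h4.trans (le_trans ?_ (mul_le_mul_right h1 _))
  rw [← WithZero.exp_add, WithZero.exp_le_exp]
  have : ((n : ℤ) + c) ≤ k := by exact_mod_cast h3
  linarith

theorem exists_exp_le (w : HeightOneSpectrum (𝓞 L)) {d : 𝓞 L} (hd : d ≠ 0) :
    ∃ c : ℕ, WithZero.exp (-(c : ℤ)) ≤ w.intValuation d := by
  rw [w.intValuation_if_neg hd]
  exact ⟨_, le_rfl⟩

theorem exists_glob (Sb : Finset (HeightOneSpectrum (𝓞 L)))
    (y : HeightOneSpectrum (𝓞 L) → L) (n : ℕ) :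
    ∃ a : L, (∀ v ∈ Sb, v.valuation L (a - y v) ≤ WithZero.exp (-(n : ℤ))) ∧
      ∀ w : HeightOneSpectrum (𝓞 L), w ∉ Sb → w.valuation L a ≤ 1 := by
  classical
  obtain ⟨⟨d, hd⟩, hd1⟩ := IsLocalization.exist_integer_multiples (nonZeroDivisors (𝓞 L)) Sb y
  have hd0 : d ≠ 0 := nonZeroDivisors.ne_zero hd
  have hdL : (d : L) ≠ 0 := by
    intro h
    exact hd0 (RingOfIntegers.coe_injective (h.trans (map_zero (algebraMap (𝓞 L) L)).symm))
  have hβ : ∀ v : HeightOneSpectrum (𝓞 L), ∃ β : 𝓞 L, v ∈ Sb → (β : L) = d * y v := by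
    intro v
    by_cases hv : v ∈ Sb
    · obtain ⟨β, h⟩ := hd1 v hv
      refine ⟨β, fun _ => ?_⟩
      have h' : algebraMap (𝓞 L) L β = d • y v := h
      rw [Algebra.smul_def] at h'
      exact h'
    · exact ⟨0, fun h => absurd h hv⟩
  choose β hβ using hβ
  have hfin : {w : HeightOneSpectrum (𝓞 L) | w.asIdeal ∣ Ideal.span {d}}.Finite :=
    Ideal.finite_factors (by rwa [Ne, Ideal.zero_eq_bot, Ideal.span_singleton_eq_bot])
  choose c hc using fun w : HeightOneSpectrum (𝓞 L) => exists_exp_le w hd0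
  set T : Finset (HeightOneSpectrum (𝓞 L)) := Sb ∪ hfin.toFinset with hT
  set K : ℕ := n + ∑ w ∈ T, c w with hK
  have hK' : ∀ w ∈ T, n + c w ≤ K := fun w hw => by
    have := Finset.single_le_sum (f := c) (fun _ _ => Nat.zero_le _) hw
    omega
  obtain ⟨γ, hγ⟩ := IsDedekindDomain.exists_forall_sub_mem_ideal (s := T)
    (fun w : HeightOneSpectrum (𝓞 L) => w.asIdeal) (fun _ => K) (fun w _ => w.prime)
    (fun w _ w' _ h h' => h (HeightOneSpectrum.ext h'))
    (fun w => if (w : HeightOneSpectrum (𝓞 L)) ∈ Sb then β w else 0)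
  refine ⟨(γ : L) / (d : L), fun v hv => ?_, fun w hw => ?_⟩
  · have hvT : v ∈ T := by rw [hT]; exact Finset.mem_union_left _ hv
    have h1 := hγ v hvT
    simp only [hv, if_true] at h1
    have h2 : (γ : L) / (d : L) - y v = ((γ - β v : 𝓞 L) : L) / (d : L) := by
      have e : ((γ - β v : 𝓞 L) : L) = (γ : L) - (β v : L) := map_sub (algebraMap (𝓞 L) L) _ _
      rw [e, hβ v hv]
      field_simp
    rw [h2]
    exact val_div_le v (hc v) h1 (hK' v hvT)
  · by_cases hwT : w ∈ T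
    · have h1 := hγ w hwT
      simp only [hw, if_false, sub_zero] at h1
      have h2 := val_div_le w (hc w) h1 (n := 0) (by have := hK' w hwT; omega)
      simpa using h2
    · have h1 : d ∉ w.asIdeal := by
        intro h
        apply hwT
        rw [hT]
        apply Finset.mem_union_right
        rw [Set.Finite.mem_toFinset]
        exact (Ideal.dvd_span_singleton).2 h
      have h2 : WithZero.exp (-((0 : ℕ) : ℤ)) ≤ w.intValuation d := by
        have := (w.intValuation_eq_one_iff_mem_primeCompl d).2 h1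
        rw [this]
        simp
      have h3 := val_div_le w (γ := γ) (k := 0) (n := 0) h2 (by simp) (by simp)
      simpa using h3

theorem exists_nat (Sb : Finset (HeightOneSpectrum (𝓞 L))) (n : ℕ) :
    ∃ M : ℕ, 0 < M ∧ ∀ v ∈ Sb, (M : 𝓞 L) ∈ v.asIdeal ^ n := by
  classical
  refine ⟨Ideal.absNorm (∏ v ∈ Sb, v.asIdeal ^ n), ?_, fun v hv => ?_⟩
  · apply Nat.pos_of_ne_zero
    rw [Ne, Ideal.absNorm_eq_zero_iff, ← Ideal.zero_eq_bot, Finset.prod_eq_zero_iff]
    rintro ⟨v, _, h⟩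
    exact v.ne_bot (eq_zero_of_pow_eq_zero h)
  · have h1 := Ideal.absNorm_mem (∏ v ∈ Sb, v.asIdeal ^ n)
    exact Ideal.le_of_dvd (Finset.dvd_prod_of_mem _ hv) h1

omit [NumberField L] in
theorem emb_rat {E : Subfield ℂ} (hLE : LE L E) (q : ℚ) : emb hLE (q : L) = (q : E) :=
  map_ratCast _ _

/-- rounding with respect to an integral basis -/
theorem exists_round {E : Subfield ℂ} [NumberField E] [Cj E] (hLE : LE L E) (w : L) {M : ℕ}
    (hM : 0 < M) {δ : ℝ} (hδ : 0 < δ) : ∃ (g : 𝓞 L) (N : ℕ),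
      nrm E (emb hLE (w + M * g / 5 ^ N)) ≤ δ := by
  classical
  set ι := Module.Free.ChooseBasisIndex ℤ (𝓞 L) with hι
  set c : ι → ℚ := fun j => (integralBasis L).repr w j with hc
  set C : ℝ := ∑ j : ι, nrm E (emb hLE (integralBasis L j)) with hC
  have hC0 : 0 ≤ C := Finset.sum_nonneg fun _ _ => nrm_nonneg _
  have hlim : Tendsto (fun N : ℕ => (M * C) * (1 / 5 : ℝ) ^ N) atTop (𝓝 0) := by
    have := (tendsto_pow_atTop_nhds_zero_of_lt_one (r := (1 / 5 : ℝ)) (by norm_num)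
      (by norm_num)).const_mul (M * C)
    simpa using this
  obtain ⟨N, hN⟩ := (hlim.eventually (gt_mem_nhds hδ)).exists
  set k : ι → ℤ := fun j => round (c j * 5 ^ N / M) with hk
  set g : 𝓞 L := -∑ j, k j • RingOfIntegers.basis L j with hg
  refine ⟨g, N, ?_⟩
  have hMQ : (0 : ℚ) < M := by exact_mod_cast hM
  have h5 : (0 : ℚ) < 5 ^ N := by positivity
  have hgL : (g : L) = -∑ j, (k j : L) * integralBasis L j := by
    rw [hg]
    have e : ((-∑ j, k j • RingOfIntegers.basis L j : 𝓞 L) : L) =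
        algebraMap (𝓞 L) L (-∑ j, k j • RingOfIntegers.basis L j) := rfl
    rw [e, map_neg, map_sum]
    congr 1
    refine Finset.sum_congr rfl fun j _ => ?_
    rw [zsmul_eq_mul, map_mul, map_intCast, integralBasis_apply]
  have hw : w = ∑ j, (c j : L) * integralBasis L j := by
    have h := (integralBasis L).sum_repr w
    conv_lhs => rw [← h]
    refine Finset.sum_congr rfl fun j _ => ?_
    rw [Algebra.smul_def]
    rfl
  set q : ι → ℚ := fun j => c j - k j * M / 5 ^ N with hq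
  have h1 : w + M * g / 5 ^ N = ∑ j, ((q j : ℚ) : L) * integralBasis L j := by
    rw [hgL]
    conv_lhs => rw [hw]
    rw [mul_neg, neg_div, Finset.mul_sum, Finset.sum_div, ← sub_eq_add_neg,
      ← Finset.sum_sub_distrib]
    refine Finset.sum_congr rfl fun j _ => ?_
    rw [hq]
    push_cast
    ring
  have h2 : ∀ j, |(q j : ℝ)| ≤ M * (1 / 5 : ℝ) ^ N := by
    intro j
    have h3 : |c j * 5 ^ N / M - k j| ≤ 1 / 2 := abs_sub_round _
    have h4 : q j = (c j * 5 ^ N / M - k j) * (M / 5 ^ N) := by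
      rw [hq]
      field_simp
    have h6 : |q j| ≤ M / 5 ^ N := by
      rw [h4, abs_mul, abs_of_pos (by positivity : (0 : ℚ) < M / 5 ^ N)]
      have h7 : (0 : ℚ) < M / 5 ^ N := by positivity
      nlinarith
    have h8 : ((|q j| : ℚ) : ℝ) ≤ ((M / 5 ^ N : ℚ) : ℝ) := by exact_mod_cast h6
    rw [Rat.cast_abs] at h8
    refine h8.trans (le_of_eq ?_)
    push_cast
    rw [one_div, inv_pow]
    rfl
  rw [h1, map_sum]
  refine (GCo.nrm_sum_le _ _).trans ?_
  calc ∑ j, nrm E (emb hLE (((q j : ℚ) : L) * integralBasis L j))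
      = ∑ j, |(q j : ℝ)| * nrm E (emb hLE (integralBasis L j)) := by
        refine Finset.sum_congr rfl fun j _ => ?_
        rw [map_mul, emb_rat, nrm_smul]
    _ ≤ ∑ j, M * (1 / 5 : ℝ) ^ N * nrm E (emb hLE (integralBasis L j)) :=
        Finset.sum_le_sum fun j _ => mul_le_mul_of_nonneg_right (h2 j) (nrm_nonneg _)
    _ = M * C * (1 / 5 : ℝ) ^ N := by
        rw [← Finset.mul_sum]
        ring
    _ ≤ δ := hN.le

theorem five_notMem {E : Subfield ℂ} [NumberField E] [Cj E] (hI : I ∈ E) {P : Ideal (𝓞 E)}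
    (hP : Stab E P) : (5 : 𝓞 E) ∉ P := by
  intro h
  obtain ⟨s, hs, a, h1⟩ := five_inv_mem_RR (E := E) hI
  refine hs P hP ?_
  have h2 : s = 5 * a := by
    apply io_injective
    rw [map_mul, ← h1, map_ofNat]
    have : (5 : E) ≠ 0 := by norm_num
    field_simp
  rw [h2]
  exact P.mul_mem_right _ h

omit [NumberField L] in
theorem comap_ne_bot {E : Subfield ℂ} [NumberField E] (hLE : LE L E) {P : Ideal (𝓞 E)}
    (hP : P ≠ ⊥) : P.comap (embO hLE) ≠ ⊥ := by
  intro h
  have h1 := Ideal.absNorm_mem P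
  have h2 : ((Ideal.absNorm P : ℕ) : 𝓞 L) ∈ P.comap (embO hLE) := by
    rw [Ideal.mem_comap, map_natCast]
    exact h1
  rw [h, Ideal.mem_bot] at h2
  have h3 : Ideal.absNorm P = 0 := by exact_mod_cast h2
  exact hP (Ideal.absNorm_eq_zero_iff.1 h3)

theorem exists_one {E : Subfield ℂ} [NumberField E] [Cj E] (hLE : LE L E)
    (Sb : Finset (HeightOneSpectrum (𝓞 L))) (h5 : ∀ v ∈ Sb, (5 : 𝓞 L) ∉ v.asIdeal) (x : ℝ)
    (ξ : ∀ v : HeightOneSpectrum (𝓞 L), v.adicCompletion L) (n : ℕ) :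
    ∃ (a : L) (r : ℚ),
      (∀ v ∈ Sb, Valued.v (((a : L) : v.adicCompletion L) - ξ v) ≤ WithZero.exp (-(n : ℤ))) ∧
      |(r : ℝ) - x| ≤ 1 / ((n : ℝ) + 1) ∧ nrm E (emb hLE a - r) ≤ 1 / ((n : ℝ) + 1) ∧
      ∀ P : Ideal (𝓞 E), Stab E P → (∀ v ∈ Sb, P.comap (embO hLE) ≠ v.asIdeal) →
        ∃ s : 𝓞 E, s ∉ P ∧ ∃ b : 𝓞 E, io E s * emb hLE a = io E b := by
  have hI : I ∈ E := (hLE _).2 ⟨by simp, by simp⟩
  have hδ : (0 : ℝ) < 1 / ((n : ℝ) + 1) := by positivity
  choose y hy using fun v : HeightOneSpectrum (𝓞 L) => exists_near v (ξ v) n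
  obtain ⟨a', ha1, ha2⟩ := exists_glob Sb y n
  obtain ⟨M, hM, hMv⟩ := exists_nat Sb n
  obtain ⟨r, hr1, hr2⟩ := exists_rat_btwn (show x < x + 1 / ((n : ℝ) + 1) by linarith)
  obtain ⟨g, N, hg⟩ := exists_round (E := E) hLE (a' - r) hM hδ
  have h5L : ((5 : 𝓞 L) : L) = 5 := map_ofNat (algebraMap (𝓞 L) L) 5
  have h5N : (((5 : 𝓞 L) ^ N : 𝓞 L) : L) = 5 ^ N := by
    have := map_pow (algebraMap (𝓞 L) L) 5 N
    rw [map_ofNat] at this
    exact this
  have hMg : (((M : 𝓞 L) * g : 𝓞 L) : L) = M * g := by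
    have := map_mul (algebraMap (𝓞 L) L) (M : 𝓞 L) g
    rw [map_natCast] at this
    exact this
  refine ⟨a' + M * g / 5 ^ N, r, fun v hv => ?_, ?_, ?_, ?_⟩
  · have h6 : ((5 : 𝓞 L) ^ N) ∉ v.asIdeal := fun h => h5 v hv (v.isPrime.mem_of_pow_mem N h)
    have h7 : WithZero.exp (-((0 : ℕ) : ℤ)) ≤ v.intValuation ((5 : 𝓞 L) ^ N) := by
      rw [(v.intValuation_eq_one_iff_mem_primeCompl _).2 h6]
      simp
    have h8 := val_div_le (L := L) v (γ := (M : 𝓞 L) * g) (k := n) (n := n) h7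
      (Ideal.mul_mem_right _ _ (hMv v hv)) (by simp)
    rw [h5N, hMg] at h8
    have h9 : v.valuation L (a' + M * g / 5 ^ N - y v) ≤ WithZero.exp (-(n : ℤ)) := by
      have e : a' + M * g / 5 ^ N - y v = (a' - y v) + M * g / 5 ^ N := by ring
      rw [e]
      exact (Valuation.map_add _ _ _).trans (max_le (ha1 v hv) h8)
    have h10 : ((a' + M * g / 5 ^ N : L) : v.adicCompletion L) - ξ v =
        ((a' + M * g / 5 ^ N - y v : L) : v.adicCompletion L) +
          (((y v : L) : v.adicCompletion L) - ξ v) := by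
      have e := map_sub (algebraMap L (v.adicCompletion L)) (a' + M * g / 5 ^ N) (y v)
      change _ = algebraMap L (v.adicCompletion L) (a' + M * g / 5 ^ N - y v) + _
      rw [e]
      change algebraMap L (v.adicCompletion L) (a' + M * g / 5 ^ N) - ξ v =
        algebraMap L (v.adicCompletion L) (a' + M * g / 5 ^ N) -
          algebraMap L (v.adicCompletion L) (y v) +
          (algebraMap L (v.adicCompletion L) (y v) - ξ v)
      ring
    rw [h10]
    refine (Valuation.map_add _ _ _).trans (max_le ?_ (hy v))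
    rw [HeightOneSpectrum.adicCompletion.valued_coe]
    exact h9
  · rw [abs_le]
    constructor <;> linarith
  · have e : emb hLE (a' + M * g / 5 ^ N) - r = emb hLE (a' - r + M * g / 5 ^ N) := by
      rw [← emb_rat hLE r, ← map_sub]
      congr 1
      ring
    rw [e]
    exact hg
  · intro P hP hPv
    have hP0 : P ≠ ⊥ :=
      Ring.ne_bot_of_isMaximal_of_not_isField hP.1 (RingOfIntegers.not_isField E)
    have hprime : (P.comap (embO hLE)).IsPrime := by
      have := hP.1.isPrime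
      exact Ideal.comap_isPrime _ _
    set w : HeightOneSpectrum (𝓞 L) := ⟨P.comap (embO hLE), hprime, comap_ne_bot hLE hP0⟩ with hw
    have hwS : w ∉ Sb := fun h => hPv w h rfl
    obtain ⟨b1, ⟨s1, hs1⟩, h6⟩ := w.exists_primeCompl_mul_eq_of_integer _ (ha2 w hwS)
    have h6' : a' * (s1 : L) = (b1 : L) := h6
    have hs1' : embO hLE s1 ∉ P := hs1
    have h5P := five_notMem hI hP
    refine ⟨embO hLE (s1 * 5 ^ N), ?_, embO hLE (5 ^ N * b1 + s1 * (M * g)), ?_⟩
    · rw [map_mul, map_pow, map_ofNat]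
      intro h
      rcases hP.1.isPrime.mem_or_mem h with h | h
      · exact hs1' h
      · exact h5P (hP.1.isPrime.mem_of_pow_mem N h)
    · have e1 : io E (embO hLE (s1 * 5 ^ N)) =
        emb hLE (algebraMap (𝓞 L) L (s1 * 5 ^ N)) := rfl
      have e2 : io E (embO hLE (5 ^ N * b1 + s1 * (M * g))) =
        emb hLE (algebraMap (𝓞 L) L (5 ^ N * b1 + s1 * (M * g))) := rfl
      rw [e1, e2, ← map_mul]
      congr 1
      rw [map_mul, map_add, map_mul, map_mul, map_mul, map_pow, map_ofNat, map_natCast]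
      change (s1 : L) * 5 ^ N * (a' + M * g / 5 ^ N) = 5 ^ N * (b1 : L) + (s1 : L) * (M * g)
      rw [← h6']
      have : (5 : L) ^ N ≠ 0 := by positivity
      field_simp

end PSeq

section
variable {L : Subfield ℝ} [NumberField L]

/-! ### Module PSeq : approximation of a real number and of elements of the completions by
elements of `L` (uses QG GCo, GRR) -/

theorem exists_seq {E : Subfield ℂ} [NumberField E] [Cj E] (hLE : LE L E)
    (Sb : Finset (HeightOneSpectrum (𝓞 L))) (h5 : ∀ v ∈ Sb, (5 : 𝓞 L) ∉ v.asIdeal) (x : ℝ)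
    (ξ : ∀ v : HeightOneSpectrum (𝓞 L), v.adicCompletion L) :
    ∃ a : ℕ → L, (∀ v ∈ Sb, Tendsto (fun n => ((a n : L) : v.adicCompletion L)) atTop (𝓝 (ξ v))) ∧
      (∃ r : ℕ → ℚ, Tendsto (fun n => (r n : ℝ)) atTop (𝓝 x) ∧
        Tendsto (fun n => nrm E (emb hLE (a n) - r n)) atTop (𝓝 0)) ∧
      ∀ n : ℕ, ∀ P : Ideal (𝓞 E), Stab E P → (∀ v ∈ Sb, P.comap (embO hLE) ≠ v.asIdeal) →
        ∃ s : 𝓞 E, s ∉ P ∧ ∃ b : 𝓞 E, io E s * emb hLE (a n) = io E b := by
  choose a r h1 h2 h3 h4 using PSeq.exists_one hLE Sb h5 x ξ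
  refine ⟨a, fun v hv => ?_, ⟨r, ?_, ?_⟩, h4⟩
  · have h6 := PSeq.tendsto_zero v (fun n => h1 n v hv)
    have h7 := h6.add_const (ξ v)
    simpa using h7
  · have h6 : Tendsto (fun n => (r n : ℝ) - x) atTop (𝓝 0) :=
      squeeze_zero_norm h2 tendsto_one_div_add_atTop_nhds_zero_nat
    have h7 := h6.add_const x
    simpa using h7
  · exact squeeze_zero (fun n => nrm_nonneg _) h3 tendsto_one_div_add_atTop_nhds_zero_nat

end

end Pool.Agent.MP_8b8716_co_QP
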