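import Mathlib
import Pool.Agent.Lib.MP_8b8716_co_HN.Basic
import Pool.Agent.Lib.MP_8b8716_co_QG.GCo
import Pool.Agent.Lib.MP_8b8716_co_QG.GRR
import Pool.Agent.Lib.MP_8b8716_co_QP.Defs
import Pool.Agent.Lib.MP_8b8716_co_QP.PArc
import Pool.Agent.Lib.MP_8b8716_co_QP.PFin
import Pool.Agent.Lib.MP_8b8716_co_QP.PSeq

set_option autoImplicit false

/-!
# MP_8b8716_co, project QP, module PAppr: the graphs over `F'` can be approximated
-/

noncomputable section

namespace Pool.Agent.MP_8b8716_co_QP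

open Complex MeasureTheory Filter Topology Set
open NumberField IsDedekindDomain
open Pool.Agent.MP_8b8716_co_HN
open Pool.Agent.MP_8b8716_co_QG

namespace PAppr

section
variable {E : Subfield ℂ}

/-- `v` is integral at `P` -/
def LI (P : Ideal (𝓞 E)) (v : E) : Prop := ∃ s : 𝓞 E, s ∉ P ∧ ∃ a : 𝓞 E, io E s * v = io E a

theorem LI.add {P : Ideal (𝓞 E)} (hP : P.IsPrime) {v w : E} (hv : LI P v) (hw : LI P w) :
    LI P (v + w) := by
  obtain ⟨s, hs, a, h1⟩ := hv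
  obtain ⟨t, ht, b, h2⟩ := hw
  refine ⟨s * t, fun hst => ?_, t * a + s * b, ?_⟩
  · rcases hP.mem_or_mem hst with h3 | h3
    · exact hs h3
    · exact ht h3
  · rw [map_mul, map_add, map_mul, map_mul]
    linear_combination (io E t) * h1 + (io E s) * h2

theorem LI.mul {P : Ideal (𝓞 E)} (hP : P.IsPrime) {v w : E} (hv : LI P v) (hw : LI P w) :
    LI P (v * w) := by
  obtain ⟨s, hs, a, h1⟩ := hv
  obtain ⟨t, ht, b, h2⟩ := hw
  refine ⟨s * t, fun hst => ?_, a * b, ?_⟩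
  · rcases hP.mem_or_mem hst with h3 | h3
    · exact hs h3
    · exact ht h3
  · rw [map_mul, map_mul]
    linear_combination (io E t * w) * h1 + (io E a) * h2

theorem LI.neg {P : Ideal (𝓞 E)} {v : E} (hv : LI P v) : LI P (-v) := by
  obtain ⟨s, hs, a, h1⟩ := hv
  refine ⟨s, hs, -a, ?_⟩
  rw [map_neg]
  linear_combination -h1

theorem LI.sub {P : Ideal (𝓞 E)} (hP : P.IsPrime) {v w : E} (hv : LI P v) (hw : LI P w) :
    LI P (v - w) := by
  rw [sub_eq_add_neg]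
  exact hv.add hP hw.neg

theorem LI.of_int {P : Ideal (𝓞 E)} (hP : P ≠ ⊤) (a : 𝓞 E) : LI P (io E a) :=
  ⟨1, fun h => hP ((Ideal.eq_top_iff_one P).2 h), a, by rw [map_one, one_mul]⟩

theorem LI.of_RR [Cj E] {P : Ideal (𝓞 E)} (hP : Stab E P) {v : E} (hv : v ∈ RR E) : LI P v := by
  obtain ⟨s, hs, a, h⟩ := hv
  exact ⟨s, hs P hP, a, h⟩

theorem exists_iO (hI : I ∈ E) : ∃ a : 𝓞 E, io E a = ⟨I, hI⟩ := by
  have hint : IsIntegral ℤ (⟨I, hI⟩ : E) := by
    refine ⟨Polynomial.X ^ 2 + 1, ?_, ?_⟩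
    · exact Polynomial.monic_X_pow_add_C (1 : ℤ) two_ne_zero
    · simp only [Polynomial.eval₂_add, Polynomial.eval₂_pow, Polynomial.eval₂_X,
        Polynomial.eval₂_one]
      apply Subtype.ext
      simp
  exact ⟨⟨⟨I, hI⟩, hint⟩, rfl⟩

variable [NumberField E] [Cj E] {S : Set (Ideal (𝓞 E))} {m : ℕ}

theorem mem_JJ_of {v : E}
    (h1 : ∀ P, Stab E P → P ∈ S → ∃ s : 𝓞 E, s ∉ P ∧ ∃ a : 𝓞 E, io E s * v = m * io E a)
    (h2 : ∀ P, Stab E P → P ∉ S → LI P v) : ∃ r ∈ JJ E S m, (r : E) = v := by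
  have hall : ∀ P, Stab E P → LI P v := by
    intro P hP
    by_cases hPS : P ∈ S
    · obtain ⟨s, hs, a, h⟩ := h1 P hP hPS
      exact ⟨s, hs, m * a, by rw [h, map_mul, map_natCast]⟩
    · exact h2 P hP hPS
  let d : Ideal (𝓞 E) :=
    { carrier := {s | ∃ t : 𝓞 E, io E s * v = io E t}
      add_mem' := by
        rintro x y ⟨t, ht⟩ ⟨t', ht'⟩
        exact ⟨t + t', by rw [map_add, map_add, add_mul, ht, ht']⟩
      zero_mem' := ⟨0, by simp⟩
      smul_mem' := by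
        rintro x y ⟨t, ht⟩
        exact ⟨x * t, by rw [smul_eq_mul, map_mul, map_mul, mul_assoc, ht]⟩ }
  obtain ⟨s, ⟨t, ht⟩, hs⟩ := exists_mem_SS d (fun P hP hle => by
    obtain ⟨s, hs, a, h⟩ := hall P hP
    exact hs (hle ⟨a, h⟩))
  refine ⟨⟨v, s, hs, t, ht⟩, ?_, rfl⟩
  intro P hPS hP
  exact h1 P hP hPS

theorem nrm_ratCast (q : ℚ) : nrm E (q : E) = |(q : ℝ)| * nrm E 1 := by
  have h := nrm_smul (E := E) q 1
  rwa [mul_one] at h

theorem nrm_lim {U : ℕ → E} {ρ : ℕ → ℚ} (hρ : Tendsto (fun n => (ρ n : ℝ)) atTop (𝓝 0))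
    (h : Tendsto (fun n => nrm E (U n - ρ n)) atTop (𝓝 0)) :
    Tendsto (fun n => nrm E (U n)) atTop (𝓝 0) := by
  have h1 : Tendsto (fun n => nrm E (U n - ρ n) + |(ρ n : ℝ)| * nrm E (1 : E)) atTop (𝓝 0) := by
    have h2 : Tendsto (fun n => |(ρ n : ℝ)| * nrm E (1 : E)) atTop (𝓝 0) := by
      have h3 := (hρ.abs).mul_const (nrm E (1 : E))
      simpa using h3
    simpa using h.add h2
  refine squeeze_zero (fun n => nrm_nonneg _) (fun n => ?_) h1
  have e : U n = (U n - ρ n) + (ρ n : E) := by ring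
  calc nrm E (U n) = nrm E ((U n - ρ n) + (ρ n : E)) := by rw [← e]
    _ ≤ nrm E (U n - ρ n) + nrm E (ρ n : E) := nrm_add_le _ _
    _ = _ := by rw [nrm_ratCast]

theorem nrm_sub_lim {U V : ℕ → E} (hU : Tendsto (fun n => nrm E (U n)) atTop (𝓝 0))
    (hV : Tendsto (fun n => nrm E (V n)) atTop (𝓝 0)) :
    Tendsto (fun n => nrm E (U n - V n)) atTop (𝓝 0) := by
  have h1 := hU.add hV
  rw [add_zero] at h1
  refine squeeze_zero (fun n => nrm_nonneg _) (fun n => ?_) h1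
  have e : U n - V n = U n + -V n := sub_eq_add_neg _ _
  calc nrm E (U n - V n) = nrm E (U n + -V n) := by rw [e]
    _ ≤ nrm E (U n) + nrm E (-V n) := nrm_add_le _ _
    _ = _ := by rw [nrm_neg]

theorem nrm_mul_lim (y : E) {U : ℕ → E} (hU : Tendsto (fun n => nrm E (U n)) atTop (𝓝 0)) :
    Tendsto (fun n => nrm E (y * U n)) atTop (𝓝 0) := by
  have h1 := hU.const_mul (∑ j, nrm E (y * om E j))
  rw [mul_zero] at h1
  exact squeeze_zero (fun n => nrm_nonneg _) (fun n => GCo.nrm_mul_le y (U n)) h1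

end

section
variable {L : Subfield ℝ} [NumberField L]

theorem coe_add' (v : HeightOneSpectrum (𝓞 L)) (x y : L) :
    ((x + y : L) : v.adicCompletion L) = (x : v.adicCompletion L) + (y : v.adicCompletion L) :=
  map_add (algebraMap L (v.adicCompletion L)) x y

theorem coe_sub' (v : HeightOneSpectrum (𝓞 L)) (x y : L) :
    ((x - y : L) : v.adicCompletion L) = (x : v.adicCompletion L) - (y : v.adicCompletion L) :=
  map_sub (algebraMap L (v.adicCompletion L)) x y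

theorem coe_one' (v : HeightOneSpectrum (𝓞 L)) : ((1 : L) : v.adicCompletion L) = 1 :=
  map_one (algebraMap L (v.adicCompletion L))

end

section
variable {L : Subfield ℝ} {E : Subfield ℂ}

theorem io_embO (hLE : LE L E) (s : 𝓞 L) : io E (embO hLE s) = emb hLE (s : L) := rfl

theorem coe_emb (hLE : LE L E) (x : L) : ((emb hLE x : E) : ℂ) = ((x : ℝ) : ℂ) := rfl

end

section
variable {L : Subfield ℝ} [NumberField L] {E : Subfield ℂ}

/-- divisibility by `m` at a place above `v` -/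
theorem div_above (hLE : LE L E) (hI : I ∈ E) {P : Ideal (𝓞 E)} (hP : P.IsPrime)
    {v : HeightOneSpectrum (𝓞 L)} (hv : v.asIdeal = P.comap (embO hLE)) {m : ℕ} {A B : L}
    (hA : ∃ s : 𝓞 L, s ∉ v.asIdeal ∧ ∃ a : 𝓞 L, (s : L) * A = m * a)
    (hB : ∃ s : 𝓞 L, s ∉ v.asIdeal ∧ ∃ a : 𝓞 L, (s : L) * B = m * a) :
    ∃ s : 𝓞 E, s ∉ P ∧ ∃ a : 𝓞 E, io E s * (emb hLE A + ⟨I, hI⟩ * emb hLE B) = m * io E a := by
  obtain ⟨s, hs, a, h1⟩ := hA
  obtain ⟨t, ht, b, h2⟩ := hB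
  obtain ⟨j, hj⟩ := exists_iO hI
  rw [hv, Ideal.mem_comap] at hs ht
  refine ⟨embO hLE s * embO hLE t, fun hst => ?_,
    embO hLE t * embO hLE a + j * embO hLE s * embO hLE b, ?_⟩
  · rcases hP.mem_or_mem hst with h3 | h3
    · exact hs h3
    · exact ht h3
  · have h1' := congrArg (emb hLE) h1
    have h2' := congrArg (emb hLE) h2
    rw [map_mul, map_mul, map_natCast] at h1' h2'
    simp only [map_mul, map_add, io_embO, hj]
    linear_combination (emb hLE (t : L)) * h1' + (⟨I, hI⟩ : E) * (emb hLE (s : L)) * h2'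

variable [NumberField E] [Cj E]

/-- one edge -/
theorem edge (hLE : LE L E) (hI : I ∈ E) (Sb : Finset (HeightOneSpectrum (𝓞 L)))
    {x y : ℝ} (hxy : x ^ 2 + y ^ 2 = 1)
    {ξ η : ∀ v : HeightOneSpectrum (𝓞 L), v.adicCompletion L}
    (hξη : ∀ v ∈ Sb, ξ v ^ 2 + η v ^ 2 = 1)
    (hξ : ∀ v ∈ Sb, x ≠ -1 → ξ v ≠ -1)
    (hξ' : ∀ v ∈ Sb, x = -1 → ξ v = -1 ∧ η v = 0)
    {X Y : ℕ → L}
    (hX : ∀ v ∈ Sb, Tendsto (fun n => ((X n : L) : v.adicCompletion L)) atTop (𝓝 (ξ v)))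
    (hY : ∀ v ∈ Sb, Tendsto (fun n => ((Y n : L) : v.adicCompletion L)) atTop (𝓝 (η v)))
    {r s : ℕ → ℚ} (hr : Tendsto (fun n => (r n : ℝ)) atTop (𝓝 x))
    (hs : Tendsto (fun n => (s n : ℝ)) atTop (𝓝 y))
    (hXr : Tendsto (fun n => nrm E (emb hLE (X n) - r n)) atTop (𝓝 0))
    (hYs : Tendsto (fun n => nrm E (emb hLE (Y n) - s n)) atTop (𝓝 0))
    (hXi : ∀ n : ℕ, ∀ P : Ideal (𝓞 E), Stab E P → (∀ v ∈ Sb, P.comap (embO hLE) ≠ v.asIdeal) →
      LI P (emb hLE (X n)))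
    (hYi : ∀ n : ℕ, ∀ P : Ideal (𝓞 E), Stab E P → (∀ v ∈ Sb, P.comap (embO hLE) ≠ v.asIdeal) →
      LI P (emb hLE (Y n)))
    {m : ℕ} (hm : 0 < m) {δ : ℝ} (hδ : 0 < δ) :
    ∀ᶠ n in atTop, ∃ c : E, ‖(c : ℂ)‖ = 1 ∧
      nrm E (emb hLE (X n) + ⟨I, hI⟩ * emb hLE (Y n) - c) < δ ∧
      ∃ r ∈ JJ E (abv hLE {p | ∃ v ∈ Sb, v.asIdeal = p}) m,
        (r : E) = emb hLE (X n) + ⟨I, hI⟩ * emb hLE (Y n) - c := by
  obtain ⟨j, hj⟩ := exists_iO hI
  -- reduction to the places in `Sb`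
  have key : ∀ n : ℕ, ∀ c : E, ‖(c : ℂ)‖ = 1 →
      (∀ v ∈ Sb, ∃ A B : L, emb hLE (X n) + ⟨I, hI⟩ * emb hLE (Y n) - c =
        emb hLE A + ⟨I, hI⟩ * emb hLE B ∧
        (∃ s : 𝓞 L, s ∉ v.asIdeal ∧ ∃ a : 𝓞 L, (s : L) * A = m * a) ∧
        (∃ s : 𝓞 L, s ∉ v.asIdeal ∧ ∃ a : 𝓞 L, (s : L) * B = m * a)) →
      ∃ r ∈ JJ E (abv hLE {p | ∃ v ∈ Sb, v.asIdeal = p}) m,
        (r : E) = emb hLE (X n) + ⟨I, hI⟩ * emb hLE (Y n) - c := by
    intro n c hc h
    apply mem_JJ_of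
    · rintro P hP ⟨v, hv, hvP⟩
      obtain ⟨A, B, h1, h2, h3⟩ := h v hv
      rw [h1]
      exact div_above hLE hI hP.1.isPrime hvP h2 h3
    · intro P hP hPS
      have hP' : ∀ v ∈ Sb, P.comap (embO hLE) ≠ v.asIdeal := by
        intro v hv hcon
        exact hPS ⟨v, hv, hcon.symm⟩
      have hpr := hP.1.isPrime
      have hjj : LI P (⟨I, hI⟩ : E) := by
        rw [← hj]
        exact LI.of_int hpr.ne_top j
      exact ((hXi n P hP hP').add hpr (hjj.mul hpr (hYi n P hP hP'))).sub hpr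
        (LI.of_RR hP (norm_one_mem_RR hc))
  by_cases hx : x = -1
  · -- the first case
    have hy : y = 0 := by
      rw [hx] at hxy
      have : y ^ 2 = 0 := by linarith
      exact pow_eq_zero_iff two_ne_zero |>.1 this
    have hn1 : Tendsto (fun n => nrm E (emb hLE (X n) + 1)) atTop (𝓝 0) := by
      apply nrm_lim (ρ := fun n => r n + 1)
      · have h1 := hr.add_const 1
        rw [hx] at h1
        simpa using h1
      · refine hXr.congr fun n => ?_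
        congr 1
        push_cast
        ring
    have hn2 : Tendsto (fun n => nrm E (emb hLE (Y n))) atTop (𝓝 0) := by
      apply nrm_lim (ρ := s)
      · rw [← hy]
        exact hs
      · exact hYs
    have hn3 : Tendsto (fun n => nrm E (emb hLE (X n) + ⟨I, hI⟩ * emb hLE (Y n) - (-1)))
        atTop (𝓝 0) := by
      have h1 := nrm_sub_lim hn1 (nrm_mul_lim (-(⟨I, hI⟩ : E)) hn2)
      refine h1.congr fun n => ?_
      congr 1
      ring
    have hev1 := hn3.eventually (gt_mem_nhds hδ)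
    have hev2 : ∀ v ∈ Sb, ∀ᶠ n in atTop, ∃ s : 𝓞 L, s ∉ v.asIdeal ∧ ∃ a : 𝓞 L,
        (s : L) * (X n + 1) = m * a := by
      intro v hv
      apply null_part v _ hm
      have h1 := (hX v hv).add_const (1 : v.adicCompletion L)
      rw [(hξ' v hv hx).1] at h1
      have h2 : (-1 : v.adicCompletion L) + 1 = 0 := by ring
      rw [h2] at h1
      refine h1.congr fun n => ?_
      rw [coe_add', coe_one']
    have hev3 : ∀ v ∈ Sb, ∀ᶠ n in atTop, ∃ s : 𝓞 L, s ∉ v.asIdeal ∧ ∃ a : 𝓞 L,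
        (s : L) * Y n = m * a := by
      intro v hv
      apply null_part v _ hm
      have h1 := hY v hv
      rwa [(hξ' v hv hx).2] at h1
    have hev2' := (Filter.eventually_all_finset Sb).2 hev2
    have hev3' := (Filter.eventually_all_finset Sb).2 hev3
    filter_upwards [hev1, hev2', hev3'] with n h1 h2 h3
    refine ⟨-1, by simp, h1, key n (-1) (by simp) fun v hv => ?_⟩
    refine ⟨X n + 1, Y n, ?_, h2 v hv, h3 v hv⟩
    rw [map_add, map_one]
    ring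
  · -- the second case
    obtain ⟨ha1, ha2⟩ := arc_part hI hxy hx (X := fun n => emb hLE (X n))
      (Y := fun n => emb hLE (Y n)) hr hs hXr hYs
    have hev1 := ha1.eventually (gt_mem_nhds hδ)
    have hev2 : ∀ v ∈ Sb, _ := fun v hv => fin_part v (hξη v hv) (hξ v hv hx) (hX v hv) (hY v hv) hm
    have hev2' := (Filter.eventually_all_finset Sb).2 hev2
    filter_upwards [hev1, ha2, hev2'] with n h1 h2 h3
    have hconj : ‖((1 + emb hLE (X n) + ⟨I, hI⟩ * emb hLE (Y n) : E) : ℂ)‖ =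
        ‖((1 + emb hLE (X n) - ⟨I, hI⟩ * emb hLE (Y n) : E) : ℂ)‖ := by
      have e1 : ((1 + emb hLE (X n) - ⟨I, hI⟩ * emb hLE (Y n) : E) : ℂ) =
          (starRingEnd ℂ) ((1 + emb hLE (X n) + ⟨I, hI⟩ * emb hLE (Y n) : E) : ℂ) := by
        push_cast
        rw [coe_emb, coe_emb]
        simp only [map_add, map_mul, map_one, Complex.conj_I, Complex.conj_ofReal]
        ring
      rw [e1, RCLike.norm_conj]
    have h2C : ((1 + emb hLE (X n) - ⟨I, hI⟩ * emb hLE (Y n) : E) : ℂ) ≠ 0 := by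
      intro h0
      exact h2 (Subtype.ext h0)
    set c : E := (1 + emb hLE (X n) + ⟨I, hI⟩ * emb hLE (Y n)) *
      (1 + emb hLE (X n) - ⟨I, hI⟩ * emb hLE (Y n))⁻¹ with hc
    have hc1 : ‖(c : ℂ)‖ = 1 := by
      have e2 : (c : ℂ) = ((1 + emb hLE (X n) + ⟨I, hI⟩ * emb hLE (Y n) : E) : ℂ) *
          ((1 + emb hLE (X n) - ⟨I, hI⟩ * emb hLE (Y n) : E) : ℂ)⁻¹ := rfl
      rw [e2, norm_mul, norm_inv, hconj]
      exact mul_inv_cancel₀ (norm_ne_zero_iff.2 h2C)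
    have hiE : (⟨I, hI⟩ : E) ^ 2 = -1 := Subtype.ext (by simp)
    have hdiff : emb hLE (X n) + ⟨I, hI⟩ * emb hLE (Y n) - c =
        -((1 - emb hLE (X n) ^ 2 - emb hLE (Y n) ^ 2) *
          (1 + emb hLE (X n) - ⟨I, hI⟩ * emb hLE (Y n))⁻¹) := by
      rw [hc]
      have h4 := mul_inv_cancel₀ h2
      linear_combination (emb hLE (X n) + ⟨I, hI⟩ * emb hLE (Y n)) *
        (-h4) + (1 + emb hLE (X n) - ⟨I, hI⟩ * emb hLE (Y n))⁻¹ *
        (-(emb hLE (Y n)) ^ 2) * hiE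
    refine ⟨c, hc1, ?_, key n c hc1 fun v hv => ?_⟩
    · rw [hdiff, nrm_neg]
      exact h1
    · obtain ⟨h5, h6, h7⟩ := h3 v hv
      refine ⟨-((1 - X n ^ 2 - Y n ^ 2) * (1 + X n) / ((1 + X n) ^ 2 + Y n ^ 2)),
        -((1 - X n ^ 2 - Y n ^ 2) * Y n / ((1 + X n) ^ 2 + Y n ^ 2)), ?_, ?_, ?_⟩
      · rw [hdiff, map_neg, map_neg, map_div₀, map_div₀]
        simp only [map_mul, map_add, map_sub, map_pow, map_one]
        have h8 : (1 + emb hLE (X n)) ^ 2 + emb hLE (Y n) ^ 2 ≠ 0 := by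
          intro h0
          apply h5
          have h9 : emb hLE ((1 + X n) ^ 2 + Y n ^ 2) = 0 := by
            simp only [map_add, map_pow, map_one]
            exact h0
          exact (map_eq_zero (emb hLE)).1 h9
        have h10 : (1 + emb hLE (X n) - ⟨I, hI⟩ * emb hLE (Y n))⁻¹ =
            (1 + emb hLE (X n) + ⟨I, hI⟩ * emb hLE (Y n)) /
              ((1 + emb hLE (X n)) ^ 2 + emb hLE (Y n) ^ 2) := by
          rw [eq_div_iff h8, inv_mul_eq_iff_eq_mul₀ h2]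
          linear_combination (emb hLE (Y n)) ^ 2 * hiE
        rw [h10]
        field_simp
        ring
      · obtain ⟨s, hs, a, ha⟩ := h6
        exact ⟨s, hs, -a, by push_cast; linear_combination -ha⟩
      · obtain ⟨s, hs, a, ha⟩ := h7
        exact ⟨s, hs, -a, by push_cast; linear_combination -ha⟩

end

end PAppr

section
variable {L : Subfield ℝ} [NumberField L]

theorem appr_of_hom {E : Subfield ℂ} [NumberField E] [Cj E] (hLE : LE L E) (hE : Euc E)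
    (Sb : Finset (HeightOneSpectrum (𝓞 L))) (h5 : ∀ v ∈ Sb, (5 : 𝓞 L) ∉ v.asIdeal)
    {F' : Subfield ℝ} (ι : ∀ v ∈ Sb, Nonempty (F' →+* v.adicCompletion L)) {T : Type} [Finite T]
    (G : SimpleGraph T) (f : T → F' × F') (hf : ∀ t t', G.Adj t t' →
      ((f t).1 - (f t').1) ^ 2 + ((f t).2 - (f t').2) ^ 2 = 1) :
    Appr E (abv hLE {p | ∃ v ∈ Sb, v.asIdeal = p}) G := by
  classical
  intro m hm δ hδ
  -- the embeddings
  have hι : ∀ v : HeightOneSpectrum (𝓞 L), ∃ g : F' → v.adicCompletion L, v ∈ Sb →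
      ∃ g' : F' →+* v.adicCompletion L, ∀ x, g x = g' x := by
    intro v
    by_cases hv : v ∈ Sb
    · obtain ⟨g'⟩ := ι v hv
      exact ⟨g', fun _ => ⟨g', fun _ => rfl⟩⟩
    · exact ⟨fun _ => 0, fun h => absurd h hv⟩
  choose g hg using hι
  choose a ha1 ha2 ha3 using fun x : F' => exists_seq hLE Sb h5 (x : ℝ) (fun v => g v x)
  choose r hr1 hr2 using ha2
  have hI := hE.i_mem
  have hedge : ∀ x1 y1 x2 y2 : F', (x1 - x2) ^ 2 + (y1 - y2) ^ 2 = 1 →
      ∀ᶠ n in atTop, ∃ c : E, ‖(c : ℂ)‖ = 1 ∧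
      nrm E ((emb hLE (a x1 n) + ⟨I, hI⟩ * emb hLE (a y1 n)) -
        (emb hLE (a x2 n) + ⟨I, hI⟩ * emb hLE (a y2 n)) - c) < δ ∧
      ∃ r ∈ JJ E (abv hLE {p | ∃ v ∈ Sb, v.asIdeal = p}) m,
        (r : E) = (emb hLE (a x1 n) + ⟨I, hI⟩ * emb hLE (a y1 n)) -
        (emb hLE (a x2 n) + ⟨I, hI⟩ * emb hLE (a y2 n)) - c := by
    intro x1 y1 x2 y2 hxyF
    have hxyR : ((x1 : ℝ) - x2) ^ 2 + ((y1 : ℝ) - y2) ^ 2 = 1 := by
      have h := congrArg (fun z : F' => (z : ℝ)) hxyF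
      push_cast at h
      exact h
    have h := PAppr.edge hLE hI Sb (x := (x1 : ℝ) - x2) (y := (y1 : ℝ) - y2) hxyR
      (ξ := fun v => g v x1 - g v x2) (η := fun v => g v y1 - g v y2)
      (X := fun n => a x1 n - a x2 n) (Y := fun n => a y1 n - a y2 n)
      (r := fun n => r x1 n - r x2 n) (s := fun n => r y1 n - r y2 n) ?_ ?_ ?_ ?_ ?_ ?_ ?_ ?_ ?_
      ?_ ?_ hm hδ
    · filter_upwards [h] with n hn
      obtain ⟨c, hc1, hc2, r', hr', hc3⟩ := hn
      have e : (emb hLE (a x1 n) + ⟨I, hI⟩ * emb hLE (a y1 n)) -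
          (emb hLE (a x2 n) + ⟨I, hI⟩ * emb hLE (a y2 n)) - c =
          emb hLE (a x1 n - a x2 n) + ⟨I, hI⟩ * emb hLE (a y1 n - a y2 n) - c := by
        rw [map_sub, map_sub]
        ring
      refine ⟨c, hc1, ?_, r', hr', ?_⟩
      · rw [e]; exact hc2
      · rw [e]; exact hc3
    · intro v hv
      obtain ⟨g', hg'⟩ := hg v hv
      simp only [hg']
      rw [← map_sub, ← map_sub, ← map_pow, ← map_pow, ← map_add, hxyF, map_one]
    · intro v hv hne hcon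
      obtain ⟨g', hg'⟩ := hg v hv
      simp only [hg'] at hcon
      apply hne
      rw [← map_sub, ← map_one g', ← map_neg] at hcon
      have h1 := g'.injective hcon
      have h2 := congrArg (fun z : F' => (z : ℝ)) h1
      push_cast at h2
      exact h2
    · intro v hv heq
      obtain ⟨g', hg'⟩ := hg v hv
      simp only [hg']
      have h1 : x1 - x2 = -1 := by
        apply Subtype.ext
        push_cast
        exact heq
      have h2 : y1 - y2 = 0 := by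
        rw [h1] at hxyF
        have h3 : (y1 - y2) ^ 2 = 0 := by linear_combination hxyF
        exact pow_eq_zero_iff two_ne_zero |>.1 h3
      rw [← map_sub, ← map_sub, h1, h2, map_neg, map_one, map_zero]
      exact ⟨rfl, rfl⟩
    · intro v hv
      exact ((ha1 x1 v hv).sub (ha1 x2 v hv)).congr fun n => (PAppr.coe_sub' v _ _).symm
    · intro v hv
      exact ((ha1 y1 v hv).sub (ha1 y2 v hv)).congr fun n => (PAppr.coe_sub' v _ _).symm
    · refine ((hr1 x1).sub (hr1 x2)).congr fun n => ?_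
      push_cast
      rfl
    · refine ((hr1 y1).sub (hr1 y2)).congr fun n => ?_
      push_cast
      rfl
    · refine (PAppr.nrm_sub_lim (hr2 x1) (hr2 x2)).congr fun n => ?_
      rw [map_sub]
      congr 1
      push_cast
      ring
    · refine (PAppr.nrm_sub_lim (hr2 y1) (hr2 y2)).congr fun n => ?_
      rw [map_sub]
      congr 1
      push_cast
      ring
    · intro n P hP hP'
      rw [map_sub]
      exact PAppr.LI.sub hP.1.isPrime (ha3 x1 n P hP hP') (ha3 x2 n P hP hP')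
    · intro n P hP hP'
      rw [map_sub]
      exact PAppr.LI.sub hP.1.isPrime (ha3 y1 n P hP hP') (ha3 y2 n P hP hP')
  have hall : ∀ᶠ n in atTop, ∀ p : T × T, G.Adj p.1 p.2 → ∃ c : E, ‖(c : ℂ)‖ = 1 ∧
      nrm E ((emb hLE (a (f p.1).1 n) + ⟨I, hI⟩ * emb hLE (a (f p.1).2 n)) -
        (emb hLE (a (f p.2).1 n) + ⟨I, hI⟩ * emb hLE (a (f p.2).2 n)) - c) < δ ∧
      ∃ r ∈ JJ E (abv hLE {p | ∃ v ∈ Sb, v.asIdeal = p}) m,
        (r : E) = (emb hLE (a (f p.1).1 n) + ⟨I, hI⟩ * emb hLE (a (f p.1).2 n)) -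
        (emb hLE (a (f p.2).1 n) + ⟨I, hI⟩ * emb hLE (a (f p.2).2 n)) - c := by
    rw [Filter.eventually_all]
    intro p
    by_cases hp : G.Adj p.1 p.2
    · exact (hedge _ _ _ _ (hf p.1 p.2 hp)).mono fun n hn _ => hn
    · exact Eventually.of_forall fun n h => absurd h hp
  obtain ⟨n, hn⟩ := hall.exists
  refine ⟨fun t => emb hLE (a (f t).1 n) + ⟨I, hI⟩ * emb hLE (a (f t).2 n), ?_⟩
  intro t t' htt
  obtain ⟨c, hc1, hc2, r', hr', hc3⟩ := hn (t, t') htt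
  exact ⟨c, hc1, hc2, r', hr', hc3⟩

end

end Pool.Agent.MP_8b8716_co_QP
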