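import Mathlib
import Pool.Agent.Lib.MP_8b8716_co_QP.Defs

/-!
# MP_8b8716_co, project QP, module PBad: the bad places are finite in number
-/

set_option autoImplicit false

noncomputable section

namespace Pool.Agent.MP_8b8716_co_QP

open Complex MeasureTheory Filter Topology Set
open NumberField IsDedekindDomain
open Pool.Agent.MP_8b8716_co_HN
open Pool.Agent.MP_8b8716_co_QG

section
variable {L : Subfield ℝ} [NumberField L]

namespace PBad

theorem finite_quot (v : HeightOneSpectrum (𝓞 L)) : Finite (𝓞 L ⧸ v.asIdeal) :=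
  Ideal.finiteQuotientOfFreeOfNeBot v.asIdeal v.ne_bot

omit [NumberField L] in
theorem one_notMem (v : HeightOneSpectrum (𝓞 L)) : (1 : 𝓞 L) ∉ v.asIdeal := fun h =>
  v.isPrime.ne_top ((Ideal.eq_top_iff_one _).2 h)

theorem two_notMem (v : HeightOneSpectrum (𝓞 L)) {l : ℕ} (hl : l.Prime)
    (hv : (l : 𝓞 L) ∈ v.asIdeal) (h2 : l ≠ 2) : (2 : 𝓞 L) ∉ v.asIdeal := by
  intro h
  obtain ⟨k, hk⟩ := hl.odd_of_ne_two h2
  refine one_notMem v ?_
  have h1 : (1 : 𝓞 L) = l - 2 * k := by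
    rw [hk]
    push_cast
    ring
  rw [h1]
  exact v.asIdeal.sub_mem hv (v.asIdeal.mul_mem_right _ h)

omit [NumberField L] in
theorem four_notMem (v : HeightOneSpectrum (𝓞 L)) (h : (2 : 𝓞 L) ∉ v.asIdeal) :
    (4 : 𝓞 L) ∉ v.asIdeal := by
  intro h4
  have h5 : (2 : 𝓞 L) * 2 ∈ v.asIdeal := by
    have : (2 : 𝓞 L) * 2 = 4 := by norm_num
    rwa [this]
  rcases v.isPrime.mem_or_mem h5 with h6 | h6
  · exact h h6
  · exact h h6

theorem unramAt (v : HeightOneSpectrum (𝓞 L)) (h : (2 : 𝓞 L) ∉ v.asIdeal) :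
    UnramAt v.asIdeal :=
  ⟨0, 4, 1, four_notMem v h, by norm_num⟩

theorem absNorm_eq (v : HeightOneSpectrum (𝓞 L)) :
    Ideal.absNorm v.asIdeal = Nat.card (𝓞 L ⧸ v.asIdeal) := by
  rw [Ideal.absNorm_apply, Submodule.cardQuot_apply]

end PBad

open PBad

theorem bad_finite (B : ℕ) : {v : HeightOneSpectrum (𝓞 L) | ¬ SplitAt v.asIdeal ∧
    ¬ (UnramAt v.asIdeal ∧ B < Nat.card (𝓞 L ⧸ v.asIdeal))}.Finite := by
  set C : ℕ := max B (Ideal.absNorm (Ideal.span {(2 : 𝓞 L)}))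
  refine Set.Finite.subset ((Ideal.finite_setOfPred_absNorm_le (S := 𝓞 L) C).preimage
    (f := fun v : HeightOneSpectrum (𝓞 L) => v.asIdeal) (fun v _ w _ h =>
      HeightOneSpectrum.ext h)) ?_
  rintro v ⟨-, hv⟩
  show Ideal.absNorm v.asIdeal ≤ C
  by_cases h2 : (2 : 𝓞 L) ∈ v.asIdeal
  · refine le_trans (Nat.le_of_dvd ?_ (Ideal.absNorm_dvd_absNorm_of_le
      ((Ideal.span_singleton_le_iff_mem _).2 h2))) (le_max_right _ _)
    refine Nat.pos_of_ne_zero fun h0 => ?_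
    rw [Ideal.absNorm_eq_zero_iff, Ideal.span_singleton_eq_bot] at h0
    exact two_ne_zero h0
  · have h3 : ¬ B < Nat.card (𝓞 L ⧸ v.asIdeal) := fun h => hv ⟨unramAt v h2, h⟩
    rw [absNorm_eq]
    exact (not_lt.1 h3).trans (le_max_left _ _)

theorem split_of_one (v : HeightOneSpectrum (𝓞 L)) {l : ℕ} (hl : l.Prime)
    (hv : (l : 𝓞 L) ∈ v.asIdeal) (h4 : l % 4 = 1) : SplitAt v.asIdeal := by
  have : Fact l.Prime := ⟨hl⟩
  have h2 : l ≠ 2 := by
    rintro rfl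
    norm_num at h4
  obtain ⟨y, hy⟩ := (ZMod.exists_sq_eq_neg_one_iff (p := l)).2 (by omega)
  have h5 : l ∣ y.val ^ 2 + 1 := by
    rw [← ZMod.natCast_eq_zero_iff]
    push_cast
    rw [ZMod.natCast_zmod_val, pow_two, ← hy]
    ring
  obtain ⟨k, hk⟩ := h5
  refine ⟨(y.val : 𝓞 L), 4, four_notMem v (two_notMem v hl hv h2), (y.val : 𝓞 L) ^ 2 + 1, ?_, rfl⟩
  have h6 : (y.val : 𝓞 L) ^ 2 + 1 = l * k := by exact_mod_cast hk
  rw [h6]
  exact v.asIdeal.mul_mem_right _ hv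

theorem exists_prime_mem (v : HeightOneSpectrum (𝓞 L)) :
    ∃ l : ℕ, l.Prime ∧ (l : 𝓞 L) ∈ v.asIdeal := by
  have := finite_quot v
  have : v.asIdeal.IsPrime := v.isPrime
  obtain ⟨p, hp⟩ := CharP.exists (𝓞 L ⧸ v.asIdeal)
  refine ⟨p, CharP.char_is_prime (𝓞 L ⧸ v.asIdeal) p, ?_⟩
  have h := CharP.cast_eq_zero (𝓞 L ⧸ v.asIdeal) p
  rw [← map_natCast (Ideal.Quotient.mk v.asIdeal), Ideal.Quotient.eq_zero_iff_mem] at h
  exact h

theorem large_of_lt (v : HeightOneSpectrum (𝓞 L)) {l : ℕ} (hl : l.Prime)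
    (hv : (l : 𝓞 L) ∈ v.asIdeal) (h2 : l ≠ 2) {B : ℕ} (hB : B < l) :
    UnramAt v.asIdeal ∧ B < Nat.card (𝓞 L ⧸ v.asIdeal) := by
  refine ⟨unramAt v (two_notMem v hl hv h2), hB.trans_le ?_⟩
  have := finite_quot v
  have : Fact l.Prime := ⟨hl⟩
  have h1 : addOrderOf (1 : 𝓞 L ⧸ v.asIdeal) = l := by
    refine addOrderOf_eq_prime ?_ ?_
    · rw [nsmul_eq_mul, mul_one, ← map_natCast (Ideal.Quotient.mk v.asIdeal),
        Ideal.Quotient.eq_zero_iff_mem]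
      exact hv
    · intro h
      rw [← map_one (Ideal.Quotient.mk v.asIdeal), Ideal.Quotient.eq_zero_iff_mem] at h
      exact one_notMem v h
  have h3 := addOrderOf_dvd_natCard (1 : 𝓞 L ⧸ v.asIdeal)
  rw [h1] at h3
  exact Nat.le_of_dvd Nat.card_pos h3

theorem split_five (v : HeightOneSpectrum (𝓞 L)) (h : (5 : 𝓞 L) ∈ v.asIdeal) :
    SplitAt v.asIdeal :=
  split_of_one v (l := 5) (by norm_num) (by exact_mod_cast h) (by norm_num)

end

end Pool.Agent.MP_8b8716_co_QP
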