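import Mathlib
import Pool.Agent.Lib.MP_8b8716_co_QG.GRR
import Pool.Agent.Lib.MP_8b8716_co_QG.GAM
import Pool.Agent.Lib.MP_8b8716_co_QG.GCo
import Pool.Agent.Lib.MP_8b8716_co_QG.GRing
import Pool.Agent.Lib.MP_8b8716_co_QG.GMix
import Pool.Agent.Lib.MP_8b8716_co_QG.GExLim
import Pool.Agent.Lib.MP_8b8716_co_QG.GLimC
import Pool.Agent.Lib.MP_8b8716_co_QG.GPsi
import Pool.Agent.Lib.MP_8b8716_co_QG.GKey
import Pool.Agent.Lib.MP_8b8716_co_QP.Defs
import Pool.Agent.Lib.MP_8b8716_co_QP.PJ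
import Pool.Agent.Lib.MP_8b8716_co_QP.PAQ
import Pool.Agent.Lib.MP_8b8716_co_QP.PAp

set_option autoImplicit false

/-!
# MP_8b8716_co, project QP, module PCol: colouring a graph which can be approximated
-/

noncomputable section

namespace Pool.Agent.MP_8b8716_co_QP

open Complex MeasureTheory Filter Topology Set
open NumberField IsDedekindDomain
open Pool.Agent.MP_8b8716_co_HN
open Pool.Agent.MP_8b8716_co_QG
open Pool.Agent.MP_8b8716_co_QG.GKey (PP PP_nonneg PP_le continuous_PP mp_shift mean_mem mean_sub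
  zz_sub zz_tendsto corr_unit)

namespace PCol

/-- the lower bound for the quadratic form -/
theorem FF_lower {lam s a b : ℝ} (hl : 0 ≤ lam) (h : lam * (1 - s) < s) (ha : s ≤ a)
    (hb : s ≤ b) :
    s * (s - lam * (1 - s)) ≤ FF lam a b := by
  have e : FF lam a b = s * (s - lam * (1 - s)) + (a - s) * (b - lam / 2 * (1 - a - s)) +
      (b - s) * (s - lam / 2 * (1 - b - s)) := by
    unfold FF
    ring
  have h1 : 0 ≤ b - lam / 2 * (1 - a - s) := by
    have : lam / 2 * (1 - a - s) ≤ lam * (1 - s) := by nlinarith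
    linarith
  have h2 : 0 ≤ s - lam / 2 * (1 - b - s) := by
    have : lam / 2 * (1 - b - s) ≤ lam * (1 - s) := by nlinarith
    linarith
  rw [e]
  nlinarith [mul_nonneg (sub_nonneg.2 ha) h1, mul_nonneg (sub_nonneg.2 hb) h2]

section

variable {E : Subfield ℂ} [NumberField E] [Cj E] {S : Set (Ideal (𝓞 E))} {m : ℕ}

theorem mul_mem_JJ {r : RR E} (h : ∃ v ∈ RR E, (r : E) = m * v) (S : Set (Ideal (𝓞 E))) :
    r ∈ JJ E S m := by
  obtain ⟨v, hv, h⟩ := h
  have : r = (m : RR E) * ⟨v, hv⟩ := Subtype.ext (by push_cast; exact h)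
  rw [this]
  exact (JJ E S m).mul_mem_right _ natCast_mem_JJ

/-- the bound for one pair of points -/
theorem pair_bound (hI : I ∈ E) {Om : Set (E → Circle)} {k : ℕ} {μ : Measure (E → Fin k)}
    {σ : Fin k → Measure (E → Circle)} (hS : Spec E Om k μ σ) (hm : 0 < m) {i : Fin k}
    {G : (E → Fin k) → ℝ} (hG : Lim E μ m i G) {ε δ : ℝ}
    (htail : (σ i (Om \ SM E m)).toReal < ε)
    (hcont : ∀ z : E, ∀ v ∈ RR E, nrm E (m * v) < δ →
      ‖(∫ x in Om ∩ SM E m, (x (z + m * v) : ℂ) ∂(σ i)) -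
        ∫ x in Om ∩ SM E m, (x z : ℂ) ∂(σ i)‖ < ε)
    {x1 x2 c v : E} (hc : ‖(c : ℂ)‖ = 1) (hv : v ∈ RR E) (hx : x1 - x2 = c + m * v)
    (hn : nrm E (m * v) < δ) :
    ∫ ω, G (shift x1 ω) * G (shift x2 ω) ∂μ ≤ 2 * ε := by
  have hmp := mp_shift hS.col
  have e1 : ∫ ω, G (shift x1 ω) * G (shift x2 ω) ∂μ = ∫ ω, G (shift (c + m * v) ω) * G ω ∂μ := by
    have e2 : ∫ ω, G (shift (c + m * v) ω) * G ω ∂μ =
        ∫ ω, (fun ω' => G (shift (c + m * v) ω') * G ω') (shift x2 ω) ∂μ := by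
      rw [← (hmp x2).map_eq]
      rw [integral_map (hmp _).measurable.aemeasurable]
      · rw [(hmp x2).map_eq]
      · exact ((hG.meas.comp (hmp _).measurable).mul hG.meas).aestronglyMeasurable
    rw [e2]
    refine integral_congr_ae (Eventually.of_forall fun ω => ?_)
    simp only [GKey.shift_shift]
    rw [← hx]
    congr 3
    ring
  have e3 := lim_corr hI hS hm hm hG hG (c + m * v)
  have e4 : Om ∩ SM E m ∩ SM E m = Om ∩ SM E m := by
    rw [inter_assoc, inter_self]
  rw [e4] at e3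
  have e5 := hcont c v hv hn
  have e6 := psi_unit (m := m) (hS.nice i) (c := c) (by
    rintro rfl
    simp at hc) (corr_unit hS i hc)
  rw [e1]
  have e8 : ‖((∫ ω, G (shift (c + m * v) ω) * G ω ∂μ : ℝ) : ℂ)‖ ≤ 2 * ε := by
    rw [e3]
    calc _ = ‖((∫ x in Om ∩ SM E m, (x (c + m * v) : ℂ) ∂(σ i)) -
          ∫ x in Om ∩ SM E m, (x c : ℂ) ∂(σ i)) +
            ∫ x in Om ∩ SM E m, (x c : ℂ) ∂(σ i)‖ := by
          rw [sub_add_cancel]
      _ ≤ _ := (norm_add_le _ _).trans (by linarith)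
  rw [Complex.norm_real] at e8
  exact (le_abs_self _).trans e8

/-- a unit vector close to `c`, with a prescribed class -/
theorem approx_near (hI : I ∈ E) {Q : Set ℕ} (hB : BBS E S Q) (hm : 0 < m) {c : E}
    (hc : ‖(c : ℂ)‖ = 1) (hcR : c ∈ RR E) (u : AQ E S m) (hu : u * barQ E S m u = 1) {δ : ℝ}
    (hδ : 0 < δ) : ∃ c' : E, ‖(c' : ℂ)‖ = 1 ∧ nrm E (c' - c) < δ ∧ ∃ h : c' ∈ RR E,
      clQ E S m ⟨c', h⟩ = u ∧ (⟨c', h⟩ - ⟨c, hcR⟩ : RR E) ∈ JJ E S m := by
  have hcc : c * cj E c = 1 := by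
    apply Subtype.ext
    rw [Subfield.coe_mul, coe_cj, Complex.mul_conj, Complex.normSq_eq_norm_sq, hc]
    norm_num
  have hcc' : clQ E S m ⟨c, hcR⟩ * barQ E S m (clQ E S m ⟨c, hcR⟩) = 1 := by
    rw [barQ_cl, ← map_mul, ← map_one (clQ E S m)]
    congr 1
    exact Subtype.ext hcc
  set v : AQ E S m := clQ E S m ⟨c, hcR⟩ with hv
  set C : ℝ := ∑ j, nrm E (c * om E j) with hC
  have hC0 : 0 ≤ C := Finset.sum_nonneg fun j _ => nrm_nonneg _
  obtain ⟨d, hd1, hdn, hdR, hdu, hdJ⟩ := approxQ hI hB hm (u * barQ E S m v) (by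
    rw [map_mul, barQ_barQ]
    linear_combination (v * barQ E S m v) * hu + hcc') (δ := δ / (C + 1)) (by positivity)
  have hmem : c * d ∈ RR E := (RR E).mul_mem hcR hdR
  refine ⟨c * d, by rw [Subfield.coe_mul, norm_mul, hc, hd1, one_mul], ?_, hmem, ?_, ?_⟩
  · have e1 : c * d - c = c * (d - 1) := by ring
    rw [e1]
    have h1 := GCo.nrm_mul_le c (d - 1)
    have h2 : C * nrm E (d - 1) ≤ C * (δ / (C + 1)) := by gcongr
    have h3 : C * (δ / (C + 1)) < δ := by
      rw [mul_div_assoc', div_lt_iff₀ (by positivity)]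
      nlinarith
    linarith
  · have e1 : (⟨c * d, hmem⟩ : RR E) = ⟨c, hcR⟩ * ⟨d, hdR⟩ := rfl
    rw [e1, map_mul, hdu]
    linear_combination u * hcc'
  · have e1 : (⟨c * d, hmem⟩ - ⟨c, hcR⟩ : RR E) = ⟨c, hcR⟩ * (⟨d, hdR⟩ - 1) := by
      apply Subtype.ext
      push_cast
      ring
    rw [e1]
    exact (JJ E S m).mul_mem_left _ hdJ

end

end PCol

section

variable {E : Subfield ℂ} [NumberField E] [Cj E] {S : Set (Ideal (𝓞 E))} {m : ℕ}

open PCol in
theorem pcolor (hE : Euc E) {Q : Set ℕ} {lam : ℝ} (hg : GapAt Q lam) (hB : BBS E S Q) {k : ℕ}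
    (hk : ((k : ℝ) - 1) * lam < 1) {Om : Set (E → Circle)} {μ : Measure (E → Fin k)}
    {σ : Fin k → Measure (E → Circle)} (hS : Spec E Om k μ σ) {T : Type} [Finite T]
    (G : SimpleGraph T) (hT : Appr E S G) : G.Colorable k := by
  classical
  have : Fintype T := Fintype.ofFinite T
  have hI := hE.i_mem
  have hl : 0 ≤ lam := hg.1
  have hprob := hS.col.prob
  have hmp := mp_shift hS.col
  -- `k` is positive
  have hk0 : 0 < k := by
    rcases Nat.eq_zero_or_pos k with rfl | h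
    · exfalso
      have h1 : IsEmpty (E → Fin 0) := ⟨fun f => (f 0).elim0⟩
      have h2 : μ Set.univ = 1 := hprob.measure_univ
      rw [Set.univ_eq_empty_iff.2 h1, measure_empty] at h2
      exact zero_ne_one h2
    · exact h
  have hkR : (0 : ℝ) < k := by exact_mod_cast hk0
  set s : ℝ := 1 / k with hs
  have hs0 : 0 < s := by positivity
  have hks : (k : ℝ) * s = 1 := by rw [hs]; field_simp
  have hs1 : s ≤ 1 := by
    rw [hs, div_le_one hkR]
    exact_mod_cast hk0
  have hls : lam * (1 - s) < s := by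
    have h1 : lam * (1 - s) = ((k : ℝ) - 1) * lam * s := by
      have : 1 - s = ((k : ℝ) - 1) * s := by linarith
      rw [this]
      ring
    rw [h1]
    nlinarith
  set η : ℝ := s * (s - lam * (1 - s)) with hη
  have hη0 : 0 < η := mul_pos hs0 (by linarith)
  set N : ℝ := ((Fintype.card (T × T × Fin k) : ℕ) : ℝ) with hN
  have hN0 : 0 ≤ N := by positivity
  set ε : ℝ := η / (2 * (N + 1)) with hε
  have hε0 : 0 < ε := by positivity
  have hNε : N * (2 * ε) < η := by
    rw [hε, mul_div_assoc', mul_div_assoc', div_lt_iff₀ (by positivity)]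
    nlinarith
  -- the modulus `m`
  obtain ⟨m, hm, htail⟩ := psi_tail hS.nice hε0
  choose Gf hGf using fun i => exists_lim hI hS hm i
  have hG' : ∀ i ω, 0 ≤ Gf i ω ∧ Gf i ω ≤ 1 := fun i ω => ⟨(hGf i).nonneg ω, (hGf i).le_one ω⟩
  have hsum := lim_sum hS.col hGf
  choose δf hδf hcont using fun i => psi_cont (hS.nice i) (m := m) hε0
  obtain ⟨δ, hδ, hδle⟩ : ∃ δ : ℝ, 0 < δ ∧ ∀ i, δ ≤ δf i := by
    have hne : (Finset.univ : Finset (Fin k)).Nonempty := ⟨⟨0, hk0⟩, Finset.mem_univ _⟩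
    exact ⟨Finset.univ.inf' hne δf, (Finset.lt_inf'_iff hne).2 fun i _ => hδf i, fun i =>
      Finset.inf'_le _ (Finset.mem_univ i)⟩
  -- the finite ring
  have : Finite (AQ E S m) := AQ_finite hm
  have : Fintype (AQ E S m) := Fintype.ofFinite _
  choose lf hlf hlJ using fun h : AQ E S m => AQ_lift hm h
  obtain ⟨e, he, he'⟩ := exists_pow_five (E := E) hI hm
  obtain ⟨z, hz⟩ := hT m hm (δ / 4) (by positivity)
  obtain ⟨K, hK⟩ : ∃ K : ℕ, ∀ h : AQ E S m, nrm E (io E (lf h) / 5 ^ (e * K)) < δ / 8 := by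
    have h1 : ∀ᶠ K : ℕ in atTop, ∀ h : AQ E S m, nrm E (io E (lf h) / 5 ^ (e * K)) < δ / 8 := by
      rw [eventually_all]
      intro h
      exact (zz_tendsto e he (io E (lf h))).eventually (gt_mem_nhds (by positivity))
    exact h1.exists
  set zz : AQ E S m → E := fun h => io E (lf h) / 5 ^ (e * K) with hzz
  have hzzR : ∀ h, ∃ hR : zz h ∈ RR E, clQ E S m ⟨zz h, hR⟩ = h ∧
      (⟨zz h, hR⟩ : RR E) ∈ JJ E S m := by
    intro h
    obtain ⟨v, hv, hv'⟩ := zz_sub hI he' K (lf h)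
    have e1 : zz h = io E (lf h) + m * v := by
      rw [hzz]
      linear_combination hv'
    have hmv : (m : E) * v ∈ RR E := (RR E).mul_mem (natCast_mem (RR E) m) hv
    have hR : zz h ∈ RR E := by
      rw [e1]
      exact (RR E).add_mem (iR E (lf h)).2 hmv
    have e2 : (⟨zz h, hR⟩ : RR E) = iR E (lf h) + ⟨m * v, hmv⟩ := Subtype.ext e1
    refine ⟨hR, ?_, ?_⟩
    · rw [e2, map_add, hlf]
      have e3 : clQ E S m ⟨m * v, hmv⟩ = 0 :=
        Ideal.Quotient.eq_zero_iff_mem.2 (mul_mem_JJ ⟨v, hv, rfl⟩ _)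
      rw [e3, add_zero]
    · rw [e2]
      exact (JJ E S m).add_mem (hlJ h) (mul_mem_JJ ⟨v, hv, rfl⟩ _)
  choose hzR hzcl hzJ using hzzR
  set U : Finset (AQ E S m) := Finset.univ.filter fun u => u * barQ E S m u = 1 with hU
  have hU' : ∀ u, u ∈ U ↔ u * barQ E S m u = 1 := fun u => by simp [hU]
  have hUne : U.Nonempty := ⟨1, (hU' 1).2 (by rw [map_one, one_mul])⟩
  have hgap : ∀ χ : AddChar (AQ E S m) ℂ, χ ≠ 1 → ‖∑ u ∈ U, χ u‖ ≤ lam * U.card := fun χ hχ =>
    gap_ring hg (barQ E S m) barQ_barQ (AQ_hid hm) (AQ_max hB hm) U hU' χ hχ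
  -- the averages
  set a : Fin k → T → (E → Fin k) → ℝ := fun i t ω =>
    mean (fun h : AQ E S m => Gf i (shift (zz h + z t) ω)) with ha
  have ha1 : ∀ i t ω, 0 ≤ a i t ω ∧ a i t ω ≤ 1 := fun i t ω => mean_mem fun h => hG' i _
  have ham : ∀ i t, Measurable (a i t) := by
    intro i t
    simp only [ha, mean]
    exact (Finset.measurable_sum _ fun h _ => (hGf i).meas.comp (hmp _).measurable).div_const _
  have hint : ∀ F1 F2 : (E → Fin k) → ℝ, Measurable F1 → Measurable F2 →
      (∀ ω, 0 ≤ F1 ω ∧ F1 ω ≤ 1) → (∀ ω, 0 ≤ F2 ω ∧ F2 ω ≤ 1) →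
      Integrable (fun ω => PP lam (F1 ω) (F2 ω)) μ := by
    intro F1 F2 m1 m2 b1 b2
    refine Integrable.of_bound (C := 2 * (1 + lam))
      ((continuous_PP.measurable.comp (m1.prodMk m2)).aestronglyMeasurable) ?_
    refine Eventually.of_forall fun ω => ?_
    rw [Real.norm_of_nonneg (PP_nonneg _ _ _)]
    exact PP_le hl (b1 ω) (b2 ω)
  -- the estimate for one edge
  have hedge : ∀ t t' : T, G.Adj t t' → ∀ i, ∫ ω, PP lam (a i t ω) (a i t' ω) ∂μ ≤ 2 * ε := by
    intro t t' htt i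
    obtain ⟨c, hc, hcn, r, hrJ, hr⟩ := hz t t' htt
    have hcR : c ∈ RR E := norm_one_mem_RR hc
    set u0 : AQ E S m := clQ E S m ⟨c, hcR⟩ + clQ E S m r with hu0
    have hpair : ∀ h : AQ E S m, ∀ u ∈ U,
        ∫ ω, Gf i (shift (zz (h + u - u0) + z t) ω) * Gf i (shift (zz h + z t') ω) ∂μ ≤ 2 * ε := by
      intro h u hu
      obtain ⟨c', hc', hcn', hc'R, hc'u, hc'J⟩ := approx_near hI hB hm hc hcR u ((hU' u).1 hu)
        (δ := δ / 4) (by positivity)
      set R : RR E := ⟨zz (h + u - u0), hzR _⟩ - ⟨zz h, hzR _⟩ + r - (⟨c', hc'R⟩ - ⟨c, hcR⟩) with hR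
      have hR1 : R ∈ JJ E S m :=
        (JJ E S m).sub_mem ((JJ E S m).add_mem ((JJ E S m).sub_mem (hzJ _) (hzJ _)) hrJ) hc'J
      have hR2 : R ∈ JJ E Sᶜ m := by
        apply Ideal.Quotient.eq_zero_iff_mem.1
        change clQ E S m R = 0
        rw [hR, map_sub, map_add, map_sub, map_sub, hzcl, hzcl, hc'u, hu0]
        ring
      obtain ⟨v, hv, hRv⟩ := of_mem_JJ hm hR1 hR2
      have hRe : (R : E) = zz (h + u - u0) - zz h + (z t - z t' - c) - (c' - c) := by
        rw [hR, ← hr]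
        push_cast
        ring
      refine pair_bound hI hS hm (hGf i) (htail i) (hcont i) hc' hv (x1 := zz (h + u - u0) + z t)
        (x2 := zz h + z t') ?_ ?_
      · rw [← hRv, hRe]
        ring
      · rw [← hRv, hRe]
        have e1 : zz (h + u - u0) - zz h + (z t - z t' - c) - (c' - c) =
            zz (h + u - u0) + (-zz h + ((z t - z t' - c) + -(c' - c))) := by ring
        rw [e1]
        have h1 := nrm_add_le (zz (h + u - u0)) (-zz h + ((z t - z t' - c) + -(c' - c)))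
        have h2 := nrm_add_le (-zz h) ((z t - z t' - c) + -(c' - c))
        have h3 := nrm_add_le (z t - z t' - c) (-(c' - c))
        rw [nrm_neg] at h2 h3
        have h4 : nrm E (zz (h + u - u0)) < δ / 8 := hK _
        have h5 : nrm E (zz h) < δ / 8 := hK _
        have h6 := hδle i
        linarith
    have h1 : ∀ ω, PP lam (a i t ω) (a i t' ω) ≤
        cross U (fun h : AQ E S m => Gf i (shift (zz (h - u0) + z t) ω))
          (fun h : AQ E S m => Gf i (shift (zz h + z t') ω)) := by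
      intro ω
      have h2 := mixing hl U hUne hgap (fun h : AQ E S m => Gf i (shift (zz (h - u0) + z t) ω))
          (fun h : AQ E S m => Gf i (shift (zz h + z t') ω)) (fun h => hG' i _) (fun h => hG' i _)
      rw [mean_sub (fun h : AQ E S m => Gf i (shift (zz h + z t) ω)) u0] at h2
      refine max_le ?_ h2
      unfold cross
      refine div_nonneg (Finset.sum_nonneg fun h _ => Finset.sum_nonneg fun u _ => ?_)
        (by positivity)
      exact mul_nonneg (hG' i _).1 (hG' i _).1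
    have hgi : ∀ h u : AQ E S m, Integrable (fun ω => Gf i (shift (zz (h + u - u0) + z t) ω) *
        Gf i (shift (zz h + z t') ω)) μ := by
      intro h u
      refine Integrable.of_bound (C := 1) ?_ (Eventually.of_forall fun ω => ?_)
      · exact (((hGf i).meas.comp (hmp _).measurable).mul
          ((hGf i).meas.comp (hmp _).measurable)).aestronglyMeasurable
      · have a1 := hG' i (shift (zz (h + u - u0) + z t) ω)
        have a2 := hG' i (shift (zz h + z t') ω)
        rw [Real.norm_of_nonneg (mul_nonneg a1.1 a2.1)]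
        exact mul_le_one₀ a1.2 a2.1 a2.2
    calc ∫ ω, PP lam (a i t ω) (a i t' ω) ∂μ
        ≤ ∫ ω, cross U (fun h : AQ E S m => Gf i (shift (zz (h - u0) + z t) ω))
          (fun h : AQ E S m => Gf i (shift (zz h + z t') ω)) ∂μ := by
          refine integral_mono (hint _ _ (ham i t) (ham i t') (ha1 i t) (ha1 i t')) ?_ h1
          unfold cross
          exact (integrable_finsetSum _ fun h _ => integrable_finsetSum _ fun u _ =>
            hgi h u).div_const _
      _ = (∑ h : AQ E S m, ∑ u ∈ U, ∫ ω, Gf i (shift (zz (h + u - u0) + z t) ω) *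
            Gf i (shift (zz h + z t') ω) ∂μ) / (Fintype.card (AQ E S m) * U.card) := by
          unfold cross
          rw [integral_div]
          congr 1
          rw [integral_finsetSum _ fun h _ => integrable_finsetSum _ fun u _ => hgi h u]
          refine Finset.sum_congr rfl fun h _ => ?_
          rw [integral_finsetSum _ fun u _ => hgi h u]
      _ ≤ 2 * ε := by
          refine div_le_of_le_mul₀ (by positivity) (by positivity) ?_
          calc _ ≤ ∑ _h : AQ E S m, ∑ _u ∈ U, 2 * ε :=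
                Finset.sum_le_sum fun h _ => Finset.sum_le_sum fun u hu => hpair h u hu
            _ = 2 * ε * (Fintype.card (AQ E S m) * U.card) := by
              rw [Finset.sum_const, Finset.sum_const, Finset.card_univ]
              simp only [nsmul_eq_mul]
              ring
  -- the choice of `ω`
  set Φ : (E → Fin k) → ℝ := fun ω => ∑ p : T × T × Fin k,
    if G.Adj p.1 p.2.1 then PP lam (a p.2.2 p.1 ω) (a p.2.2 p.2.1 ω) else 0 with hΦ
  have hΦi : ∀ p : T × T × Fin k, Integrable (fun ω => if G.Adj p.1 p.2.1 then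
      PP lam (a p.2.2 p.1 ω) (a p.2.2 p.2.1 ω) else 0) μ := by
    intro p
    by_cases h : G.Adj p.1 p.2.1
    · simp only [if_pos h]
      exact hint _ _ (ham _ _) (ham _ _) (ha1 _ _) (ha1 _ _)
    · simp only [if_neg h]
      exact integrable_zero _ _ _
  have hΦint : ∫ ω, Φ ω ∂μ < η := by
    have h1 : ∫ ω, Φ ω ∂μ ≤ ∑ _p : T × T × Fin k, 2 * ε := by
      rw [hΦ, integral_finsetSum _ fun p _ => hΦi p]
      refine Finset.sum_le_sum fun p _ => ?_
      by_cases h : G.Adj p.1 p.2.1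
      · simp only [if_pos h]
        exact hedge _ _ h _
      · simp only [if_neg h, integral_zero]
        positivity
    rw [Finset.sum_const, Finset.card_univ, nsmul_eq_mul] at h1
    exact lt_of_le_of_lt h1 hNε
  have hsum1 : ∀ᵐ ω ∂μ, ∀ t, ∑ i, a i t ω = 1 := by
    rw [ae_all_iff]
    intro t
    have h1 : ∀ᵐ ω ∂μ, ∀ h : AQ E S m, ∑ i, Gf i (shift (zz h + z t) ω) = 1 := by
      rw [ae_all_iff]
      intro h
      exact (hmp (zz h + z t)).quasiMeasurePreserving.ae hsum
    filter_upwards [h1] with ω hω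
    have hcard : (Fintype.card (AQ E S m) : ℝ) ≠ 0 := by
      exact_mod_cast Fintype.card_ne_zero
    simp only [ha, mean]
    rw [← Finset.sum_div, Finset.sum_comm]
    simp only [hω]
    rw [Finset.sum_const, Finset.card_univ, nsmul_eq_mul, mul_one]
    exact div_self hcard
  obtain ⟨ω, hω1, hω2⟩ : ∃ ω, (∀ t, ∑ i, a i t ω = 1) ∧ Φ ω < η := by
    by_contra hcon
    push Not at hcon
    have h1 : ∀ᵐ ω ∂μ, η ≤ Φ ω := by
      filter_upwards [hsum1] with ω hω
      exact hcon ω hω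
    have h2 : ∫ _ω, η ∂μ ≤ ∫ ω, Φ ω ∂μ :=
      integral_mono_ae (integrable_const _) (integrable_finsetSum _ fun p _ => hΦi p) h1
    rw [integral_const] at h2
    simp at h2
    linarith
  -- the colouring
  have hcol : ∀ t, ∃ i, s ≤ a i t ω := by
    intro t
    by_contra hcon
    push Not at hcon
    have h1 : ∑ i, a i t ω < ∑ _i : Fin k, s :=
      Finset.sum_lt_sum_of_nonempty ⟨⟨0, hk0⟩, Finset.mem_univ _⟩ fun i _ => hcon i
    rw [hω1 t, Finset.sum_const, Finset.card_univ, Fintype.card_fin, nsmul_eq_mul, hks] at h1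
    exact lt_irrefl _ h1
  choose col hcol using hcol
  refine ⟨SimpleGraph.Coloring.mk col fun {t t'} htt heq => ?_⟩
  have h1 : η ≤ FF lam (a (col t) t ω) (a (col t) t' ω) :=
    FF_lower hl hls (hcol t) (by rw [heq]; exact hcol t')
  have h2 : FF lam (a (col t) t ω) (a (col t) t' ω) ≤ Φ ω := by
    have h3 : PP lam (a (col t) t ω) (a (col t) t' ω) ≤ Φ ω := by
      have h4 : (if G.Adj t t' then PP lam (a (col t) t ω) (a (col t) t' ω) else 0) ≤ Φ ω :=
        Finset.single_le_sum (f := fun p : T × T × Fin k =>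
          if G.Adj p.1 p.2.1 then PP lam (a p.2.2 p.1 ω) (a p.2.2 p.2.1 ω) else 0)
          (fun p _ => by
            split_ifs
            · exact PP_nonneg _ _ _
            · exact le_rfl) (Finset.mem_univ (t, t', col t))
      rwa [if_pos htt] at h4
    exact (le_max_right _ _).trans h3
  linarith

end

end Pool.Agent.MP_8b8716_co_QP
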