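import Mathlib
import Pool.Agent.Lib.MP_8b8716_co_QP.Defs

/-!
# MP_8b8716_co, project QP, module PHom: homomorphisms to the completions
-/

set_option autoImplicit false

noncomputable section

namespace Pool.Agent.MP_8b8716_co_QP

open Complex MeasureTheory Filter Topology Set
open NumberField IsDedekindDomain
open Pool.Agent.MP_8b8716_co_HN
open Pool.Agent.MP_8b8716_co_QG

/-! ### Module PHom -/

namespace PHom

/-- the elements `p + q √D` form a subfield -/
theorem irr {D : ℕ} (hD : ¬ IsSquare D) : Irreducible (Polynomial.X ^ 2 - Polynomial.C (D : ℚ)) := by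
  refine X_pow_sub_C_irreducible_of_prime Nat.prime_two fun b hb => hD ?_
  rw [← Rat.isSquare_natCast_iff]
  exact ⟨b, by rw [← hb, pow_two]⟩

theorem mpoly {D : ℕ} (hD : ¬ IsSquare D) :
    minpoly ℚ (Real.sqrt D) = Polynomial.X ^ 2 - Polynomial.C (D : ℚ) := by
  refine (minpoly.eq_of_irreducible_of_monic (irr hD) ?_ ?_).symm
  · simp
  · exact Polynomial.monic_X_pow_sub_C _ two_ne_zero

theorem integral (D : ℕ) : IsIntegral ℚ (Real.sqrt D) := by
  refine ⟨Polynomial.X ^ 2 - Polynomial.C (D : ℚ), Polynomial.monic_X_pow_sub_C _ two_ne_zero, ?_⟩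
  simp

end PHom

theorem hom_of_root {K : Type} [Field K] [CharZero K] {D : ℕ} (hD : ¬ IsSquare D) {w : K}
    (hw : w ^ 2 = D) : Nonempty (qf D →+* K) := by
  have hle : qf D ≤ (IntermediateField.adjoin ℚ {Real.sqrt D}).toSubfield := by
    refine Subfield.closure_le.2 ?_
    intro x hx
    exact IntermediateField.subset_adjoin ℚ _ hx
  have hroot : w ∈ (minpoly ℚ (Real.sqrt D)).aroots K := by
    rw [Polynomial.mem_aroots]
    refine ⟨minpoly.ne_zero (PHom.integral D), ?_⟩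
    rw [PHom.mpoly hD]
    simp [hw]
  let f : IntermediateField.adjoin ℚ {Real.sqrt D} →ₐ[ℚ] K :=
    (IntermediateField.algHomAdjoinIntegralEquiv ℚ (PHom.integral D)).symm ⟨w, hroot⟩
  exact ⟨(f : IntermediateField.adjoin ℚ {Real.sqrt D} →+* K).comp (Subfield.inclusion hle)⟩

section
variable {L : Subfield ℝ} [NumberField L]

theorem charZero_compl (v : HeightOneSpectrum (𝓞 L)) : CharZero (v.adicCompletion L) :=
  charZero_of_injective_algebraMap (algebraMap L (v.adicCompletion L)).injective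

namespace PHom

theorem val_int (v : HeightOneSpectrum (𝓞 L)) (c : ℤ) :
    Valued.v (c : v.adicCompletion L) ≤ 1 := by
  have h1 : (c : v.adicCompletion L) = ((algebraMap (𝓞 L) L (c : 𝓞 L) : L) :
      v.adicCompletion L) := by
    change (c : v.adicCompletion L) = algebraMap L (v.adicCompletion L) _
    simp
  rw [h1, HeightOneSpectrum.adicCompletion.valued_coe]
  exact HeightOneSpectrum.valuation_le_one v _

theorem val_l (v : HeightOneSpectrum (𝓞 L)) {l : ℕ} (hv : (l : 𝓞 L) ∈ v.asIdeal) :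
    Valued.v (l : v.adicCompletion L) < 1 := by
  have h1 : (l : v.adicCompletion L) = ((algebraMap (𝓞 L) L (l : 𝓞 L) : L) :
      v.adicCompletion L) := by
    change (l : v.adicCompletion L) = algebraMap L (v.adicCompletion L) _
    simp
  rw [h1, HeightOneSpectrum.adicCompletion.valued_coe]
  exact (HeightOneSpectrum.valuation_lt_one_iff_mem v _).2 hv

theorem tends (v : HeightOneSpectrum (𝓞 L)) {l : ℕ} (hv : (l : 𝓞 L) ∈ v.asIdeal)
    {b : ℕ → v.adicCompletion L}
    (h : ∀ k, ∃ c : ℤ, b k = (l : v.adicCompletion L) ^ k * c) : Tendsto b atTop (𝓝 0) := by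
  have h0 := Valued.tendsto_zero_pow_of_v_lt_one (val_l v hv)
  rw [(Valued.hasBasis_nhds_zero _ _).tendsto_right_iff] at h0 ⊢
  intro γ hγ
  filter_upwards [h0 γ hγ] with k hk
  obtain ⟨c, hc⟩ := h k
  refine lt_of_le_of_lt ?_ hk
  rw [Valuation.restrict_le_iff, hc, map_mul]
  exact mul_le_of_le_one_right' (val_int v c)

end PHom

namespace PHom

/-- the integers which approximate the root -/
theorem seq {l : ℕ} [Fact l.Prime] (n : ℕ) (h : IsSquare (n : ℚ_[l])) :
    ∃ A : ℕ → ℤ, (∀ k, ∃ c : ℤ, A (k + 1) - A k = (l : ℤ) ^ k * c) ∧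
      ∀ k, ∃ c : ℤ, A k ^ 2 - n = (l : ℤ) ^ k * c := by
  obtain ⟨y, hy⟩ := h
  have hy1 : ‖y‖ ≤ 1 := by
    have h1 : ‖y‖ * ‖y‖ ≤ 1 := by
      rw [← norm_mul, ← hy]
      exact Padic.norm_int_le_one (p := l) n
    nlinarith [norm_nonneg y]
  obtain ⟨z, hz⟩ : ∃ z : ℤ_[l], (z : ℚ_[l]) = y := ⟨⟨y, hy1⟩, rfl⟩
  have hzz : z * z = n := by
    apply Subtype.ext
    push_cast
    rw [hz]
    exact hy.symm
  have hA : ∀ k, (l : ℤ_[l]) ^ k ∣ z - ((z.appr k : ℤ) : ℤ_[l]) := by
    intro k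
    have := PadicInt.appr_spec k z
    rw [Ideal.mem_span_singleton] at this
    simpa using this
  refine ⟨fun k => (z.appr k : ℤ), fun k => ?_, fun k => ?_⟩
  · have h2 : (l : ℤ_[l]) ^ k ∣ (((z.appr (k + 1) : ℤ) - (z.appr k : ℤ) : ℤ) : ℤ_[l]) := by
      have e : (((z.appr (k + 1) : ℤ) - (z.appr k : ℤ) : ℤ) : ℤ_[l]) =
          (z - ((z.appr k : ℤ) : ℤ_[l])) - (z - ((z.appr (k + 1) : ℤ) : ℤ_[l])) := by
        rw [Int.cast_sub]
        ring
      rw [e]
      exact dvd_sub (hA k) ((pow_dvd_pow _ (Nat.le_succ k)).trans (hA (k + 1)))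
    exact (PadicInt.pow_p_dvd_int_iff k _).1 h2
  · have h2 : (l : ℤ_[l]) ^ k ∣ (((z.appr k : ℤ) ^ 2 - n : ℤ) : ℤ_[l]) := by
      have e : (((z.appr k : ℤ) ^ 2 - n : ℤ) : ℤ_[l]) =
          -((z - ((z.appr k : ℤ) : ℤ_[l])) * (z + ((z.appr k : ℤ) : ℤ_[l]))) := by
        rw [Int.cast_sub, Int.cast_pow, Int.cast_natCast n, ← hzz]
        ring
      rw [e]
      exact (dvd_mul_of_dvd_left (hA k) _).neg_right
    exact (PadicInt.pow_p_dvd_int_iff k _).1 h2

theorem castK {K : Type*} [Field K] {a b c : ℤ} {l k : ℕ} (h : a - b = (l : ℤ) ^ k * c) :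
    (a : K) - b = (l : K) ^ k * c := by
  have := congrArg (fun t : ℤ => (t : K)) h
  push_cast at this
  exact this

/-- the limit, in a general complete nonarchimedean field -/
theorem limit {K : Type*} [Field K] [UniformSpace K] [IsUniformAddGroup K] [IsTopologicalRing K]
    [NonarchimedeanAddGroup K] [CompleteSpace K] [T2Space K] {A : ℕ → ℤ} {n : ℕ}
    (h1 : Tendsto (fun k => (A (k + 1) : K) - (A k : K)) atTop (𝓝 0))
    (h2 : Tendsto (fun k => (A k : K) ^ 2 - (n : K)) atTop (𝓝 0)) : ∃ w : K, w ^ 2 = n := by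
  have hc := NonarchimedeanAddGroup.cauchySeq_of_tendsto_sub_nhds_zero (f := fun k => (A k : K)) h1
  obtain ⟨w, hw⟩ := cauchySeq_tendsto_of_complete hc
  refine ⟨w, ?_⟩
  have t4 : Tendsto (fun k => (A k : K) ^ 2 - (n : K)) atTop (𝓝 (w ^ 2 - n)) :=
    (hw.pow 2).sub_const _
  exact sub_eq_zero.1 (tendsto_nhds_unique t4 h2)

end PHom

theorem sq_of_padic (v : HeightOneSpectrum (𝓞 L)) {l : ℕ} [Fact l.Prime]
    (hv : (l : 𝓞 L) ∈ v.asIdeal) (n : ℕ) (h : IsSquare (n : ℚ_[l])) :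
    ∃ w : v.adicCompletion L, w ^ 2 = n := by
  obtain ⟨A, h1, h3⟩ := PHom.seq n h
  have t1 : Tendsto (fun k => ((A (k + 1) : ℤ) : v.adicCompletion L) -
      ((A k : ℤ) : v.adicCompletion L)) atTop (𝓝 0) := by
    refine PHom.tends v hv fun k => ?_
    obtain ⟨c, hc⟩ := h1 k
    exact ⟨c, PHom.castK hc⟩
  have t3 : Tendsto (fun k => ((A k : ℤ) : v.adicCompletion L) ^ 2 -
      (n : v.adicCompletion L)) atTop (𝓝 0) := by
    refine PHom.tends v hv fun k => ?_
    obtain ⟨c, hc⟩ := h3 k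
    refine ⟨c, ?_⟩
    have := PHom.castK (K := v.adicCompletion L) hc
    rw [Int.cast_pow, Int.cast_natCast] at this
    exact this
  exact PHom.limit t1 t3

end

end Pool.Agent.MP_8b8716_co_QP
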