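import Mathlib
import Pool.Agent.Lib.MP_8b8716_co_QP.Defs
import Pool.Agent.Lib.MP_8b8716_co_QG.GHyp

set_option autoImplicit false

/-!
# MP_8b8716_co, project QP, module PHyp: the field `E = L(i)`
-/

noncomputable section

namespace Pool.Agent.MP_8b8716_co_QP

open NumberField IsDedekindDomain
open Pool.Agent.MP_8b8716_co_HN
open Pool.Agent.MP_8b8716_co_QG

namespace PHyp

open Pool.Agent.MP_8b8716_co_QG.GHyp (eO cO_eO exists_eO iO iO_sq cO_iO exists_half iO_mul_mem
  instNF instCj)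

variable (L : Subfield ℝ)

theorem le : LE L (fldPlane L) := fun _ => mem_fldPlane

/-- every integer of `L(i)` is, up to `s`, generated by a half-integral element -/
theorem exists_eO_add {s : 𝓞 L} {Y : 𝓞 (fldPlane L)}
    (h3 : Y - cO (fldPlane L) Y = eO L s * iO L) (z : 𝓞 (fldPlane L)) :
    ∃ x y : 𝓞 L, eO L s * z = eO L x + eO L y * Y := by
  have hy : cO (fldPlane L) (-iO L * (z - cO (fldPlane L) z)) =
      -iO L * (z - cO (fldPlane L) z) := by
    rw [map_mul, map_neg, map_sub, cO_iO, cO_cO]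
    ring
  obtain ⟨y, hy'⟩ := exists_eO L hy
  have hx : cO (fldPlane L) (eO L s * z - eO L y * Y) = eO L s * z - eO L y * Y := by
    rw [map_sub, map_mul, map_mul, cO_eO, cO_eO]
    have h4 : cO (fldPlane L) Y = Y - eO L s * iO L := by rw [← h3]; ring
    rw [h4, hy']
    linear_combination (-(z - cO (fldPlane L) z) * eO L s) * iO_sq L
  obtain ⟨x, hx'⟩ := exists_eO L hx
  exact ⟨x, y, by rw [hx']; ring⟩

/-- the residue field of a stable ideal -/
theorem card_eq {s : 𝓞 L} {Y : 𝓞 (fldPlane L)} (h3 : Y - cO (fldPlane L) Y = eO L s * iO L)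
    {P : Ideal (𝓞 (fldPlane L))} (hP : Stab (fldPlane L) P) (hmax : (P.comap (eO L)).IsMaximal)
    (hs : s ∉ P.comap (eO L)) :
    Nat.card (𝓞 (fldPlane L) ⧸ P) = Nat.card (𝓞 L ⧸ P.comap (eO L)) ^ 2 := by
  have hprime := hP.1.isPrime
  set φ : 𝓞 L ⧸ P.comap (eO L) →+* 𝓞 (fldPlane L) ⧸ P := Ideal.quotientMap P (eO L) le_rfl with hφ
  have hφm (x : 𝓞 L) : φ (Ideal.Quotient.mk _ x) = Ideal.Quotient.mk P (eO L x) :=
    Ideal.quotientMap_mk
  let f : ((𝓞 L ⧸ P.comap (eO L)) × (𝓞 L ⧸ P.comap (eO L))) →+ 𝓞 (fldPlane L) ⧸ P :=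
    { toFun := fun p => φ p.1 + φ p.2 * Ideal.Quotient.mk P Y
      map_zero' := by simp
      map_add' := by
        intro p q
        simp only [Prod.fst_add, Prod.snd_add, map_add]
        ring }
  have hf (p) : f p = φ p.1 + φ p.2 * Ideal.Quotient.mk P Y := rfl
  have hinj : Function.Injective f := by
    rw [injective_iff_map_eq_zero]
    rintro ⟨x, y⟩ hxy
    obtain ⟨x, rfl⟩ := Ideal.Quotient.mk_surjective x
    obtain ⟨y, rfl⟩ := Ideal.Quotient.mk_surjective y
    rw [hf, hφm, hφm, ← map_mul, ← map_add, Ideal.Quotient.eq_zero_iff_mem] at hxy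
    have h4 := hP.2 _ hxy
    rw [map_add, map_mul, cO_eO, cO_eO] at h4
    have h5 := P.sub_mem hxy h4
    have h6 : eO L x + eO L y * Y - (eO L x + eO L y * cO (fldPlane L) Y) =
        eO L y * eO L s * iO L := by
      linear_combination (eO L y) * h3
    rw [h6] at h5
    have h7 : eO L y ∈ P := by
      rcases hprime.mem_or_mem (iO_mul_mem L h5) with h | h
      · exact h
      · exact absurd (Ideal.mem_comap.2 h) hs
    have h8 : eO L x ∈ P := by
      have := P.sub_mem hxy (P.mul_mem_right Y h7)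
      rwa [add_sub_cancel_right] at this
    rw [Prod.mk_eq_zero, Ideal.Quotient.eq_zero_iff_mem, Ideal.Quotient.eq_zero_iff_mem]
    exact ⟨h8, h7⟩
  have hsurj : Function.Surjective f := by
    intro z
    obtain ⟨z, rfl⟩ := Ideal.Quotient.mk_surjective z
    obtain ⟨x, y, hxy⟩ := exists_eO_add L h3 z
    obtain ⟨t, ht⟩ := Ideal.Quotient.exists_inv (I := P.comap (eO L))
      (a := Ideal.Quotient.mk _ s) (by rwa [Ne, Ideal.Quotient.eq_zero_iff_mem])
    obtain ⟨t, rfl⟩ := Ideal.Quotient.mk_surjective t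
    have ht' : Ideal.Quotient.mk P (eO L s) * Ideal.Quotient.mk P (eO L t) = 1 := by
      have := congrArg φ ht
      rwa [map_mul, hφm, hφm, map_one] at this
    refine ⟨(Ideal.Quotient.mk _ (t * x), Ideal.Quotient.mk _ (t * y)), ?_⟩
    rw [hf, hφm, hφm]
    have h1 := congrArg (Ideal.Quotient.mk P) hxy
    rw [map_mul, map_add, map_mul] at h1
    simp only [map_mul]
    linear_combination (-Ideal.Quotient.mk P (eO L t)) * h1 + (Ideal.Quotient.mk P z) * ht'
  rw [← Nat.card_congr (Equiv.ofBijective f ⟨hinj, hsurj⟩), Nat.card_prod, pow_two]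

theorem bbs [NumberField L] (Sb : Set (Ideal (𝓞 L))) {Q : Set ℕ}
    (h : ∀ p : Ideal (𝓞 L), p.IsMaximal → p ∉ Sb →
      SplitAt p ∨ (UnramAt p ∧ Nat.card (𝓞 L ⧸ p) ∈ Q)) :
    BBS (fldPlane L) (abv (le L) Sb) Q := by
  intro P hP hPS
  have hP0 : P ≠ ⊥ := Ring.ne_bot_of_isMaximal_of_not_isField hP.1
    (RingOfIntegers.not_isField (fldPlane L))
  have : Finite (𝓞 (fldPlane L) ⧸ P) := Ideal.finiteQuotientOfFreeOfNeBot P hP0
  have hinj : Function.Injective (Ideal.quotientMap P (eO L) (le_refl (P.comap (eO L)))) :=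
    Ideal.quotientMap_injective
  have hfin : Finite (𝓞 L ⧸ P.comap (eO L)) := Finite.of_injective _ hinj
  have := hP.1.isPrime
  have hpp : (P.comap (eO L)).IsPrime := Ideal.comap_isPrime (eO L) P
  have hmax : (P.comap (eO L)).IsMaximal :=
    Ideal.Quotient.maximal_of_isField _ (Finite.isField_of_domain _)
  have hPS' : P.comap (eO L) ∉ Sb := hPS
  rcases h _ hmax hPS' with ⟨a', s, hs, b', hb', he⟩ | ⟨⟨a, s, b, hs, he⟩, hQ⟩
  · exfalso
    obtain ⟨Z, _, g2, g3⟩ := exists_half L he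
    have g4 : Z * cO (fldPlane L) Z ∈ P := by
      rw [g2, map_mul]
      exact P.mul_mem_left _ hb'
    have g5 : Z ∈ P ∧ cO (fldPlane L) Z ∈ P := by
      rcases hP.1.isPrime.mem_or_mem g4 with g | g
      · exact ⟨g, hP.2 _ g⟩
      · have := hP.2 _ g
        rw [cO_cO] at this
        exact ⟨this, g⟩
    have g6 := P.sub_mem g5.1 g5.2
    rw [g3] at g6
    exact hs (iO_mul_mem L g6)
  · obtain ⟨Y, h1, h2, h3⟩ := exists_half L he
    refine ⟨⟨_, hQ, card_eq L h3 hP hmax hs⟩, Y, fun h4 => hs ?_⟩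
    have h5 : cO (fldPlane L) Y - Y = -(eO L s) * iO L := by
      linear_combination -h3
    rw [h5] at h4
    have h6 := P.neg_mem (iO_mul_mem L h4)
    rw [neg_neg] at h6
    exact h6

end PHyp

section

variable {L : Subfield ℝ} [NumberField L]

theorem exists_fieldP (Sb : Set (Ideal (𝓞 L))) {Q : Set ℕ}
    (h : ∀ p : Ideal (𝓞 L), p.IsMaximal → p ∉ Sb →
      SplitAt p ∨ (UnramAt p ∧ Nat.card (𝓞 L ⧸ p) ∈ Q)) :
    ∃ E : Subfield ℂ, ∃ (_ : NumberField E) (_ : Cj E) (hLE : LE L E), Euc E ∧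
      BBS E (abv hLE Sb) Q :=
  ⟨fldPlane L, GHyp.instNF L, GHyp.instCj L, PHyp.le L, GHyp.euc L, PHyp.bbs L Sb h⟩

end

end Pool.Agent.MP_8b8716_co_QP
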