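import Mathlib
import Pool.Agent.Lib.MP_8b8716_co_QP.Defs

/-!
# MP_8b8716_co, project QP, module PQsp: split places of quadratic fields
-/

set_option autoImplicit false

noncomputable section

namespace Pool.Agent.MP_8b8716_co_QP

open Complex MeasureTheory Filter Topology Set
open NumberField IsDedekindDomain
open Pool.Agent.MP_8b8716_co_HN
open Pool.Agent.MP_8b8716_co_QG

namespace PQsp

theorem sqrt_mem (D : ℕ) : Real.sqrt D ∈ qf D := Subfield.subset_closure rfl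

theorem isIntegral_sqrt (D : ℕ) : IsIntegral ℚ (Real.sqrt D) := by
  refine ⟨Polynomial.X ^ 2 - Polynomial.C (D : ℚ), Polynomial.monic_X_pow_sub_C _ two_ne_zero, ?_⟩
  rw [Polynomial.eval₂_sub, Polynomial.eval₂_pow, Polynomial.eval₂_X, Polynomial.eval₂_C]
  have h1 : Real.sqrt D ^ 2 = D := Real.sq_sqrt (Nat.cast_nonneg D)
  simp [h1]

/-- the square root as an algebraic integer -/
theorem exists_w (D : ℕ) : ∃ w : 𝓞 (qf D), w ^ 2 = (D : 𝓞 (qf D)) := by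
  have h1 : Real.sqrt D ^ 2 = D := Real.sq_sqrt (Nat.cast_nonneg D)
  have hint : IsIntegral ℤ (⟨Real.sqrt D, sqrt_mem D⟩ : qf D) := by
    refine ⟨Polynomial.X ^ 2 - Polynomial.C (D : ℤ), Polynomial.monic_X_pow_sub_C _ two_ne_zero, ?_⟩
    rw [Polynomial.eval₂_sub, Polynomial.eval₂_pow, Polynomial.eval₂_X, Polynomial.eval₂_C]
    apply Subtype.ext
    simp [h1]
  obtain ⟨w, hw⟩ : ∃ w : 𝓞 (qf D), (w : qf D) = ⟨Real.sqrt D, sqrt_mem D⟩ :=
    ⟨⟨⟨Real.sqrt D, sqrt_mem D⟩, hint⟩, rfl⟩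
  refine ⟨w, ?_⟩
  apply RingOfIntegers.coe_injective
  rw [map_pow, map_natCast]
  change (w : qf D) ^ 2 = (D : qf D)
  rw [hw]
  apply Subtype.ext
  simp

/-- a square root of `-D` modulo the powers of `l` -/
theorem exists_root {D l : ℕ} [Fact l.Prime] (h : IsSquare (-(D : ℚ_[l]))) (k : ℕ) :
    ∃ b : ℕ, l ^ k ∣ b ^ 2 + D := by
  obtain ⟨s, hs⟩ := h
  have hs1 : ‖s‖ ≤ 1 := by
    by_contra hc
    have hc' : 1 < ‖s‖ := not_le.1 hc
    have h1 : ‖s‖ * ‖s‖ ≤ 1 := by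
      rw [← norm_mul, ← hs, norm_neg]
      have := Padic.norm_int_le_one (p := l) (D : ℤ)
      simpa using this
    nlinarith
  obtain ⟨s', hs'⟩ : ∃ s' : ℤ_[l], (s' : ℚ_[l]) = s := ⟨⟨s, hs1⟩, rfl⟩
  have h2 : s' * s' = -(D : ℤ_[l]) := by
    apply Subtype.ext
    simp [hs, hs']
  have h3 := congrArg (PadicInt.toZModPow k) h2
  rw [map_mul, map_neg, map_natCast] at h3
  refine ⟨(PadicInt.toZModPow k s').val, ?_⟩
  have hne : NeZero (l ^ k) := ⟨pow_ne_zero _ (Fact.out : l.Prime).ne_zero⟩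
  rw [← ZMod.natCast_eq_zero_iff]
  push_cast
  rw [ZMod.natCast_zmod_val, pow_two, h3]
  ring

theorem not_sq_dvd {D : ℕ} (hD : Squarefree D) {l : ℕ} (hl : l.Prime) : ¬ l ^ 2 ∣ D := by
  intro h
  have := hD l (by rwa [pow_two] at h)
  exact hl.one_lt.ne' (Nat.isUnit_iff.1 this)

theorem sq_mod_eight (b : ℕ) : b ^ 2 % 8 = 0 ∨ b ^ 2 % 8 = 1 ∨ b ^ 2 % 8 = 4 := by
  have h : b % 8 = 0 ∨ b % 8 = 1 ∨ b % 8 = 2 ∨ b % 8 = 3 ∨ b % 8 = 4 ∨ b % 8 = 5 ∨ b % 8 = 6 ∨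
      b % 8 = 7 := by omega
  rcases h with h | h | h | h | h | h | h | h <;> simp [Nat.pow_mod, h]

end PQsp

open PQsp

theorem numberField_qf (D : ℕ) : NumberField (qf D) := by
  have hfin : FiniteDimensional ℚ (IntermediateField.adjoin ℚ {Real.sqrt D}) :=
    IntermediateField.adjoin.finiteDimensional (isIntegral_sqrt D)
  have hle : ∀ x ∈ qf D, x ∈ (IntermediateField.adjoin ℚ {Real.sqrt D}) := by
    have h1 : qf D ≤ (IntermediateField.adjoin ℚ {Real.sqrt D}).toSubfield := by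
      refine Subfield.closure_le.2 ?_
      intro x hx
      rw [mem_singleton_iff] at hx
      subst hx
      exact IntermediateField.mem_adjoin_simple_self ℚ _
    exact fun x hx => h1 hx
  let f : qf D →+* IntermediateField.adjoin ℚ {Real.sqrt D} :=
    { toFun := fun x => ⟨x, hle x x.2⟩
      map_one' := rfl
      map_zero' := rfl
      map_mul' := fun _ _ => rfl
      map_add' := fun _ _ => rfl }
  have hinj : Function.Injective f.toRatAlgHom.toLinearMap := by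
    intro x y hxy
    exact f.injective hxy
  have hf : FiniteDimensional ℚ (qf D) := FiniteDimensional.of_injective _ hinj
  exact { to_charZero := inferInstance, to_finiteDimensional := hf }

theorem quad_split {D : ℕ} (hD : Squarefree D) [NumberField (qf D)]
    (v : HeightOneSpectrum (𝓞 (qf D))) {l : ℕ} [Fact l.Prime]
    (hv : (l : 𝓞 (qf D)) ∈ v.asIdeal) (hl : l = 2 ∨ l % 4 = 3)
    (h : IsSquare (-(D : ℚ_[l]))) : SplitAt v.asIdeal := by
  have hlp : l.Prime := Fact.out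
  obtain ⟨w, hw⟩ := exists_w D
  have h1n : (1 : 𝓞 (qf D)) ∉ v.asIdeal := fun h1 =>
    v.isPrime.ne_top ((Ideal.eq_top_iff_one _).2 h1)
  have hsqf := not_sq_dvd hD hlp
  rcases hl with hl | hl
  · subst hl
    obtain ⟨b, hb⟩ := exists_root h 3
    have h8 : D % 8 = 7 := by
      have h1 := sq_mod_eight b
      have h2 : (b ^ 2 + D) % 8 = 0 := Nat.mod_eq_zero_of_dvd (by norm_num at hb; exact hb)
      have h3 : D % 4 ≠ 0 := fun h4 => hsqf (by norm_num; exact Nat.dvd_of_mod_eq_zero h4)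
      omega
    obtain ⟨d, hd⟩ : ∃ d : ℕ, D + 1 = 8 * d := ⟨(D + 1) / 8, by omega⟩
    have h4 : w ^ 2 + 1 = 4 * (2 * (d : 𝓞 (qf D))) := by
      rw [hw]
      have : ((D + 1 : ℕ) : 𝓞 (qf D)) = ((8 * d : ℕ) : 𝓞 (qf D)) := by rw [hd]
      push_cast at this
      rw [this]
      ring
    refine ⟨w, 1, h1n, 2 * d, ?_, by rw [one_mul, h4]⟩
    have h5 := v.asIdeal.mul_mem_right (d : 𝓞 (qf D)) hv
    exact_mod_cast h5
  · obtain ⟨b, hb⟩ := exists_root h 2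
    have hbl : ¬ l ∣ b := by
      rintro ⟨c, rfl⟩
      refine hsqf ((Nat.dvd_add_right ?_).1 hb)
      exact pow_dvd_pow_of_dvd (Dvd.intro c rfl) 2
    have hb1 : l ∣ b ^ 2 + D := (dvd_pow_self l two_ne_zero).trans hb
    have h4P : (4 : 𝓞 (qf D)) ∉ v.asIdeal := by
      intro h4
      obtain ⟨k, hk⟩ : ∃ k : ℕ, l = 4 * k + 3 := ⟨l / 4, by omega⟩
      refine h1n ?_
      have h5 : (1 : 𝓞 (qf D)) = 4 * (k + 1) - l := by
        rw [hk]
        push_cast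
        ring
      rw [h5]
      exact v.asIdeal.sub_mem (v.asIdeal.mul_mem_right _ h4) hv
    have hcop : Nat.Coprime b l := ((Nat.Prime.coprime_iff_not_dvd hlp).2 hbl).symm
    obtain ⟨c, hc⟩ : ∃ c : ℤ, (b : ℤ) * c ≡ 1 [ZMOD l] := Int.mod_coprime hcop
    obtain ⟨u, hu⟩ := hb1
    obtain ⟨t, ht⟩ := (Int.modEq_iff_dvd.1 hc)
    have e1 : ((b : 𝓞 (qf D))) ^ 2 + (D : 𝓞 (qf D)) = l * u := by
      exact_mod_cast congrArg (Nat.cast : ℕ → 𝓞 (qf D)) hu
    have e2 : (1 : 𝓞 (qf D)) - b * c = l * t := by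
      exact_mod_cast congrArg (Int.cast : ℤ → 𝓞 (qf D)) ht
    have e3 : ((c : 𝓞 (qf D)) * w) ^ 2 + 1 =
        (l : 𝓞 (qf D)) * (c ^ 2 * u + t * (1 + b * c)) := by
      rw [mul_pow, hw]
      linear_combination (c : 𝓞 (qf D)) ^ 2 * e1 + (1 + (b : 𝓞 (qf D)) * c) * e2
    refine ⟨(c : 𝓞 (qf D)) * w, 4, h4P, ((c : 𝓞 (qf D)) * w) ^ 2 + 1, ?_, rfl⟩
    rw [e3]
    exact v.asIdeal.mul_mem_right _ hv

end Pool.Agent.MP_8b8716_co_QP
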