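import Mathlib
import Pool.Agent.Lib.MP_8b8716_co.Defs
import Pool.Agent.Lib.MP_8b8716_co_HN.InvCol
import Pool.Agent.Lib.MP_8b8716_co_QF.QMain
import Pool.Agent.Lib.MP_8b8716_co_QG.GSpec
import Pool.Agent.Lib.MP_8b8716_co_QG.GMain
import Pool.Agent.Lib.MP_8b8716_co_QP.Defs
import Pool.Agent.Lib.MP_8b8716_co_QP.PCol
import Pool.Agent.Lib.MP_8b8716_co_QP.PAppr
import Pool.Agent.Lib.MP_8b8716_co_QP.PHyp
import Pool.Agent.Lib.MP_8b8716_co_QP.PBad
import Pool.Agent.Lib.MP_8b8716_co_QP.PHom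
import Pool.Agent.Lib.MP_8b8716_co_QP.PQsp

set_option autoImplicit false

/-!
# MP_8b8716_co, project QP, module PMain: the final assembly
-/

noncomputable section

namespace Pool.Agent.MP_8b8716_co_QP

open Complex MeasureTheory Filter Topology Set
open NumberField IsDedekindDomain
open Pool.Agent.MP_8b8716_co_HN
open Pool.Agent.MP_8b8716_co_QG
open Pool.Agent.MP8b8716 (unitDistanceGraph)
open Pool.Agent.MP_8b8716_co_QF (seven)

theorem pmain_gap {L F : Subfield ℝ} [NumberField L] (hLF : L ≤ F) {B : ℕ} {lam : ℝ}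
    (hg : GapAt {q | B < q} lam) {k : ℕ} (hkl : ((k : ℝ) - 1) * lam < 1) {F' : Subfield ℝ}
    (h : ∀ v : HeightOneSpectrum (𝓞 L), SplitAt v.asIdeal ∨
      (UnramAt v.asIdeal ∧ B < Nat.card (𝓞 L ⧸ v.asIdeal)) ∨
      Nonempty (F' →+* v.adicCompletion L)) (hk : (unitDistanceGraph F).Colorable k) :
    (unitDistanceGraph F').Colorable k := by
  classical
  have hfin := bad_finite (L := L) B
  set Sb : Finset (HeightOneSpectrum (𝓞 L)) := hfin.toFinset with hSb
  have hSb' : ∀ v, v ∈ Sb ↔ ¬ SplitAt v.asIdeal ∧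
      ¬ (UnramAt v.asIdeal ∧ B < Nat.card (𝓞 L ⧸ v.asIdeal)) := fun v => by simp [hSb]
  have h5 : ∀ v ∈ Sb, (5 : 𝓞 L) ∉ v.asIdeal := fun v hv h5 => ((hSb' v).1 hv).1 (split_five v h5)
  have hι : ∀ v ∈ Sb, Nonempty (F' →+* v.adicCompletion L) := by
    intro v hv
    have h1 := (hSb' v).1 hv
    rcases h v with h2 | h2 | h2
    · exact absurd h2 h1.1
    · exact absurd h2 h1.2
    · exact h2
  obtain ⟨E, hN, hJ, hLE, hE, hB⟩ := exists_fieldP (L := L) {p | ∃ v ∈ Sb, v.asIdeal = p}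
    (Q := {q | B < q}) (by
      intro p hp hpS
      have hp0 : p ≠ ⊥ := Ring.ne_bot_of_isMaximal_of_not_isField hp (RingOfIntegers.not_isField L)
      by_contra hcon
      rw [not_or] at hcon
      exact hpS ⟨⟨p, hp.isPrime, hp0⟩, (hSb' _).2 hcon, rfl⟩)
  have hEF : ∀ z ∈ E, z.re ∈ F ∧ z.im ∈ F := fun z hz =>
    ⟨hLF ((hLE z).1 hz).1, hLF ((hLE z).1 hz).2⟩
  obtain ⟨C⟩ := hk
  have hκ : ∀ z w : E, ‖(z : ℂ) - w‖ = 1 →
      C (⟨z.1.re, (hEF z z.2).1⟩, ⟨z.1.im, (hEF z z.2).2⟩) ≠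
        C (⟨w.1.re, (hEF w w.2).1⟩, ⟨w.1.im, (hEF w w.2).2⟩) := by
    intro z w hzw
    apply C.valid
    show (_ : F) = 1
    apply Subtype.ext
    have h1 : ‖(z : ℂ) - w‖ ^ 2 = 1 := by rw [hzw]; norm_num
    rw [← Complex.normSq_eq_norm_sq, Complex.normSq_apply] at h1
    simp only [Complex.sub_re, Complex.sub_im] at h1
    push_cast
    nlinarith [h1]
  obtain ⟨μ, hμ⟩ := exists_randCol hE.ctb
    (fun z : E => C (⟨z.1.re, (hEF z z.2).1⟩, ⟨z.1.im, (hEF z z.2).2⟩)) hκ
  obtain ⟨σ, hS⟩ := gspec hE hμ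
  apply SimpleGraph.nonempty_hom_of_forall_finite_subgraph_hom
  intro G' hG'
  have : Finite G'.verts := hG'
  have h1 := appr_of_hom hLE hE Sb h5 hι G'.coe (fun t => (t : F' × F')) (by
    intro t t' htt
    exact G'.adj_sub htt)
  exact (pcolor hE hg hB hkl hS G'.coe h1).some

/-- **Theorem P.** -/
theorem pmain {L F F' : Subfield ℝ} [NumberField L] (hLF : L ≤ F)
    (h : ∀ v : HeightOneSpectrum (𝓞 L), SplitAt v.asIdeal ∨
      (UnramAt v.asIdeal ∧ 97 < Nat.card (𝓞 L ⧸ v.asIdeal)) ∨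
      Nonempty (F' →+* v.adicCompletion L)) {k : ℕ} (hk : (unitDistanceGraph F).Colorable k) :
    (unitDistanceGraph F').Colorable k := by
  rcases Nat.lt_or_ge k 7 with h7 | h7
  · obtain ⟨lam, hg, hkl⟩ := exists_lam 6
    refine pmain_gap hLF (B := 97) (lam := lam) hg ?_ h hk
    have h1 : (k : ℝ) ≤ 6 := by exact_mod_cast Nat.lt_succ_iff.1 h7
    have h2 : ((k : ℝ) - 1) * lam ≤ ((6 : ℕ) - 1 : ℝ) * lam := by
      apply mul_le_mul_of_nonneg_right _ hg.1
      push_cast
      linarith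
    exact lt_of_le_of_lt h2 hkl
  · obtain ⟨κ, h1, h2⟩ := seven h7
    exact Pool.Agent.MP_8b8716_co_QF.colorable_of_top F'
      (Pool.Agent.MP_8b8716_co_QF.colorable_top_of_meas
        (Pool.Agent.MP_8b8716_co_QF.measColorable_of_complex
          ⟨κ, fun i => (h1 (measurableSet_singleton i)).nullMeasurableSet, h2⟩))

/-- quadratic fields -/
theorem pquad {D D' : ℕ} (hD : Squarefree D) (hD' : Squarefree D') (h1' : 1 < D')
    (h : ∀ l : ℕ, ∀ _ : Fact l.Prime, l = 2 ∨ l % 4 = 3 → l ≤ 97 →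
      IsSquare (-(D : ℚ_[l])) ∨ IsSquare ((D * D' : ℕ) : ℚ_[l])) {k : ℕ}
    (hk : (unitDistanceGraph (qf D)).Colorable k) : (unitDistanceGraph (qf D')).Colorable k := by
  have := numberField_qf D
  refine pmain (L := qf D) le_rfl (fun v => ?_) hk
  obtain ⟨l, hl, hv⟩ := exists_prime_mem v
  have hlf : Fact l.Prime := ⟨hl⟩
  have hD0 : D ≠ 0 := hD.ne_zero
  by_cases h4 : l % 4 = 1
  · exact Or.inl (split_of_one v hl hv h4)
  · have h3 : l = 2 ∨ l % 4 = 3 := by
      rcases hl.eq_two_or_odd with h | h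
      · exact Or.inl h
      · right; omega
    by_cases h97 : l ≤ 97
    · rcases h l hlf h3 h97 with h5 | h5
      · exact Or.inl (quad_split hD v hv h3 h5)
      · right; right
        have hcz := charZero_compl v
        obtain ⟨w, hw⟩ := sq_of_padic v hv _ h5
        -- the image of `√D`
        have hmem : Real.sqrt D ∈ qf D := Subfield.subset_closure rfl
        set d : qf D := ⟨Real.sqrt D, hmem⟩ with hd
        have hd2 : d ^ 2 = (D : qf D) := by
          apply Subtype.ext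
          have h6 : Real.sqrt D ^ 2 = D := Real.sq_sqrt (Nat.cast_nonneg D)
          simp [hd, h6]
        have hK2 : (algebraMap (qf D) (v.adicCompletion (qf D)) d) ^ 2 =
            (D : v.adicCompletion (qf D)) := by
          rw [← map_pow, hd2, map_natCast]
        have hDK : (D : v.adicCompletion (qf D)) ≠ 0 := by exact_mod_cast hD0
        have hK0 : algebraMap (qf D) (v.adicCompletion (qf D)) d ≠ 0 := by
          intro h7
          rw [h7] at hK2
          exact hDK (by rw [← hK2]; ring)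
        refine hom_of_root (w := w / algebraMap (qf D) (v.adicCompletion (qf D)) d) ?_ ?_
        · rintro ⟨n, hn⟩
          have h8 := (Nat.squarefree_iff_prime_squarefree.1 hD')
          have h9 : n = 1 ∨ 1 < n := by
            rcases n with _ | _ | n
            · simp at hn; omega
            · left; rfl
            · right; omega
          rcases h9 with rfl | h9
          · omega
          · obtain ⟨p, hp, hpn⟩ := Nat.exists_prime_and_dvd h9.ne'
            exact h8 p hp (hn ▸ mul_dvd_mul hpn hpn)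
        · rw [div_pow, hw, hK2]
          push_cast
          field_simp
    · right; left
      exact large_of_lt v hl hv (by omega) (by omega)

end Pool.Agent.MP_8b8716_co_QP
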